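import Pool.Agent.Lib.MP_4eed4e_an_P.PBase

set_option autoImplicit false

/-!
Project P, block B, module BTa: calculus of the eigenfunctions of `T0`.

Write `M = κ.1.1`, `M' = κ.1.2`, `M = M' mod 2`, so the divisions by `2` in `Ci`, `Bi` are exact:
`2 C_1 = M - M'`, `2 C_2 = -(M + M')`, `2 B_1 = 3 M + M'`, `2 B_2 = 3 M - M'`.
* `Ci_Bi`: `3 C_i² + B_i² = 4 nrm κ` for `i = 0, 1, 2` (`ring` after clearing the `2`s).
* `lap_uf`: `-Δ (sin (C π x / √3) sin (B π y / 3)) = π² (C² / 3 + B² / 9) ..= π² (3 C² + B²) / 9 ..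
  = (4 π² / 9) nrm κ ..`, and `(mu κ)⁻¹ = 4 π² nrm κ / 9`.
* `uf_bd1`: `sin 0 = 0`. `uf_bd2`: `sin (C_i π) = 0`. `uf_bd3`: on `x = √3 y`, with `σ = π y / 3`:
  `π x / √3 = 3 σ`, `2 sin (3 C σ) sin (B σ) = cos ((3C - B) σ) - cos ((3C + B) σ)`, and
  `3 C_0 + B_0 = 2 B_1`, `3 C_0 - B_0 = 2 B_2`, `3 C_1 + B_1 = 2 B_2`, `3 C_1 - B_1 = -2 B_0`,
  `3 C_2 + B_2 = - 2 B_0`, `3 C_2 - B_2 = - 2 B_1`: the sum
  `(cos 2B_2σ - cos 2B_1σ) + (cos 2B_0σ - cos 2B_2σ) + (cos 2B_1σ - cos 2B_0σ)` is `0`.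
* `d2_uf`, `d1_uf`: differentiate.
* `nrm_pos`: `M ≥ 1`, `M' ≥ 3 M + 1`; for `M = 1` the parity gives `M' ≥ 5`, `nrm ≥ 28 / 4`; for `M
≥ 2`   `M' ≥ 7`, `nrm ≥ 61 / 4`.
* `summable_mu`: `nrm κ ≥ (M + M')² / 16`-type bound, compare with `1 / ((M)² (M')²)`: by
  `3 M² + M'² ≥ 2 M M'`, `nrm ≥ M M' / 2`, so `mu² ≤ C / (M² M'²)`, summable over `ℕ × ℕ`, and a
subtype   (`Summable.subtype`; `M, M' ≥ 1`).
* `abs_gO`: `|gO| ≤ ∑ |B_i| ≤ 3 · 2 √nrm`. `abs_gA`: `|gA| ≤ ∑ |C_i| ≤ 3 · 2 √nrm`.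
-/

namespace Pool.Agent.MP4eed4eP

open MeasureTheory Set

/-- the half-integer divisions are exact, real form -/
private theorem bta_half (κ : KS) :
    (Ci κ 0 : ℝ) = (κ.1.1 : ℝ) ∧ (Ci κ 1 : ℝ) = ((κ.1.1 : ℝ) - κ.1.2) / 2 ∧
    (Ci κ 2 : ℝ) = -(((κ.1.1 : ℝ) + κ.1.2) / 2) ∧
    (Bi κ 0 : ℝ) = (κ.1.2 : ℝ) ∧ (Bi κ 1 : ℝ) = (3 * (κ.1.1 : ℝ) + κ.1.2) / 2 ∧
    (Bi κ 2 : ℝ) = (3 * (κ.1.1 : ℝ) - κ.1.2) / 2 := by
  obtain ⟨⟨M, M'⟩, h1, h2, h3⟩ := κ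
  simp only at h1 h2 h3
  have e1 : 2 * (((M : ℤ) - M') / 2) = (M : ℤ) - M' := by omega
  have e2 : 2 * (((M : ℤ) + M') / 2) = (M : ℤ) + M' := by omega
  have e3 : 2 * ((3 * (M : ℤ) + M') / 2) = 3 * (M : ℤ) + M' := by omega
  have e4 : 2 * ((3 * (M : ℤ) - M') / 2) = 3 * (M : ℤ) - M' := by omega
  have f1 : (2 : ℝ) * ((((M : ℤ) - M') / 2 : ℤ) : ℝ) = (M : ℝ) - M' := by
    exact_mod_cast e1
  have f2 : (2 : ℝ) * ((((M : ℤ) + M') / 2 : ℤ) : ℝ) = (M : ℝ) + M' := by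
    exact_mod_cast e2
  have f3 : (2 : ℝ) * (((3 * (M : ℤ) + M') / 2 : ℤ) : ℝ) = 3 * (M : ℝ) + M' := by
    exact_mod_cast e3
  have f4 : (2 : ℝ) * (((3 * (M : ℤ) - M') / 2 : ℤ) : ℝ) = 3 * (M : ℝ) - M' := by
    exact_mod_cast e4
  refine ⟨?_, ?_, ?_, ?_, ?_, ?_⟩
  · simp [Ci]
  · change ((((M : ℤ) - M') / 2 : ℤ) : ℝ) = ((M : ℝ) - M') / 2
    linarith
  · change ((-(((M : ℤ) + M') / 2) : ℤ) : ℝ) = -(((M : ℝ) + M') / 2)
    rw [Int.cast_neg]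
    linarith
  · simp [Bi]
  · change (((3 * (M : ℤ) + M') / 2 : ℤ) : ℝ) = (3 * (M : ℝ) + M') / 2
    linarith
  · change (((3 * (M : ℤ) - M') / 2 : ℤ) : ℝ) = (3 * (M : ℝ) - M') / 2
    linarith

theorem Ci_Bi (κ : KS) (i : Fin 3) : 3 * (Ci κ i : ℝ) ^ 2 + (Bi κ i : ℝ) ^ 2 = 4 * nrm κ := by
  obtain ⟨c0, c1, c2, b0, b1, b2⟩ := bta_half κ
  unfold nrm
  fin_cases i
  · change 3 * (Ci κ 0 : ℝ) ^ 2 + (Bi κ 0 : ℝ) ^ 2 = _
    rw [c0, b0]
    ring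
  · change 3 * (Ci κ 1 : ℝ) ^ 2 + (Bi κ 1 : ℝ) ^ 2 = _
    rw [c1, b1]
    ring
  · change 3 * (Ci κ 2 : ℝ) ^ 2 + (Bi κ 2 : ℝ) ^ 2 = _
    rw [c2, b2]
    ring

theorem nrm_pos (κ : KS) : 7 ≤ nrm κ := by
  obtain ⟨⟨M, M'⟩, h1, h2, h3⟩ := κ
  simp only at h1 h2 h3
  unfold nrm
  simp only
  rcases Nat.lt_or_ge M 2 with h | h
  · have hM : M = 1 := by omega
    subst hM
    have hM' : 5 ≤ M' := by omega
    have : (5 : ℝ) ≤ M' := by exact_mod_cast hM'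
    push_cast
    nlinarith
  · have hM' : 7 ≤ M' := by omega
    have h5 : (7 : ℝ) ≤ M' := by exact_mod_cast hM'
    have h6 : (2 : ℝ) ≤ M := by exact_mod_cast h
    nlinarith

theorem contDiff_uf (κ : KS) : ContDiff ℝ ⊤ (uf κ) := by
  unfold uf
  refine ContDiff.sum fun i _ => ContDiff.mul ?_ ?_
  · exact Real.contDiff_sin.comp
      (contDiff_const.mul ((contDiff_const.mul contDiff_fst).div_const _))
  · exact Real.contDiff_sin.comp
      (contDiff_const.mul ((contDiff_const.mul contDiff_snd).div_const _))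

private theorem bta_s (c e t : ℝ) : HasDerivAt (fun t => Real.sin (c * (Real.pi * t / e)))
    (c * Real.pi / e * Real.cos (c * (Real.pi * t / e))) t := by
  have h := ((((hasDerivAt_id' t).const_mul Real.pi).div_const e).const_mul c).sin
  convert h using 1
  ring

private theorem bta_c (c e t : ℝ) : HasDerivAt (fun t => Real.cos (c * (Real.pi * t / e)))
    (-(c * Real.pi / e) * Real.sin (c * (Real.pi * t / e))) t := by
  have h := ((((hasDerivAt_id' t).const_mul Real.pi).div_const e).const_mul c).cos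
  convert h using 1
  ring

private theorem bta_d1 {f : P → ℝ} {x : P} (hf : DifferentiableAt ℝ f x) {f' : ℝ}
    (h : HasDerivAt (fun t => f (t, x.2)) f' x.1) : d1 f x = f' := by
  have h1 : HasDerivAt (fun t : ℝ => ((t, x.2) : P)) (1, 0) x.1 :=
    (hasDerivAt_id' x.1).prodMk (hasDerivAt_const x.1 x.2)
  have h2 : HasFDerivAt f (fderiv ℝ f x) ((fun t : ℝ => ((t, x.2) : P)) x.1) := hf.hasFDerivAt
  have h3 := h2.comp_hasDerivAt x.1 h1
  exact h3.unique h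

private theorem bta_d2 {f : P → ℝ} {x : P} (hf : DifferentiableAt ℝ f x) {f' : ℝ}
    (h : HasDerivAt (fun t => f (x.1, t)) f' x.2) : d2 f x = f' := by
  have h1 : HasDerivAt (fun t : ℝ => ((x.1, t) : P)) (0, 1) x.2 :=
    (hasDerivAt_const x.2 x.1).prodMk (hasDerivAt_id' x.2)
  have h2 : HasFDerivAt f (fderiv ℝ f x) ((fun t : ℝ => ((x.1, t) : P)) x.2) := hf.hasFDerivAt
  have h3 := h2.comp_hasDerivAt x.2 h1
  exact h3.unique h

private theorem bta_du (κ : KS) (x : P) : DifferentiableAt ℝ (uf κ) x :=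
  ((contDiff_uf κ).differentiable (by simp)) x

private theorem bta_d1u (κ : KS) (x : P) : d1 (uf κ) x =
    ∑ i, Ci κ i * Real.pi / √3 * Real.cos (Ci κ i * (Real.pi * x.1 / √3)) *
      Real.sin (Bi κ i * (Real.pi * x.2 / 3)) := by
  refine bta_d1 (bta_du κ x) ?_
  unfold uf
  refine HasDerivAt.fun_sum fun i _ => ?_
  exact (bta_s (Ci κ i) (√3) x.1).mul_const (Real.sin (Bi κ i * (Real.pi * x.2 / 3)))

private theorem bta_d2u (κ : KS) (x : P) : d2 (uf κ) x =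
    ∑ i, Real.sin (Ci κ i * (Real.pi * x.1 / √3)) *
      (Bi κ i * Real.pi / 3 * Real.cos (Bi κ i * (Real.pi * x.2 / 3))) := by
  refine bta_d2 (bta_du κ x) ?_
  unfold uf
  refine HasDerivAt.fun_sum fun i _ => ?_
  exact (bta_s (Bi κ i) 3 x.2).const_mul (Real.sin (Ci κ i * (Real.pi * x.1 / √3)))

private theorem bta_d11u (κ : KS) (x : P) : d1 (d1 (uf κ)) x =
    ∑ i, Ci κ i * Real.pi / √3 * (-(Ci κ i * Real.pi / √3) *
      Real.sin (Ci κ i * (Real.pi * x.1 / √3))) * Real.sin (Bi κ i * (Real.pi * x.2 / 3)) := by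
  rw [show d1 (uf κ) = _ from funext (bta_d1u κ)]
  refine bta_d1 ?_ ?_
  · refine DifferentiableAt.fun_sum fun i _ => ?_
    fun_prop
  · refine HasDerivAt.fun_sum fun i _ => ?_
    exact ((bta_c (Ci κ i) (√3) x.1).const_mul (Ci κ i * Real.pi / √3)).mul_const
      (Real.sin (Bi κ i * (Real.pi * x.2 / 3)))

private theorem bta_d22u (κ : KS) (x : P) : d2 (d2 (uf κ)) x =
    ∑ i, Real.sin (Ci κ i * (Real.pi * x.1 / √3)) *
      (Bi κ i * Real.pi / 3 * (-(Bi κ i * Real.pi / 3) *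
        Real.sin (Bi κ i * (Real.pi * x.2 / 3)))) := by
  rw [show d2 (uf κ) = _ from funext (bta_d2u κ)]
  refine bta_d2 ?_ ?_
  · refine DifferentiableAt.fun_sum fun i _ => ?_
    fun_prop
  · refine HasDerivAt.fun_sum fun i _ => ?_
    exact ((bta_c (Bi κ i) 3 x.2).const_mul (Bi κ i * Real.pi / 3)).const_mul
      (Real.sin (Ci κ i * (Real.pi * x.1 / √3)))

theorem lap_uf (κ : KS) (x : P) :
    d1 (d1 (uf κ)) x + d2 (d2 (uf κ)) x = -(mu κ)⁻¹ * uf κ x := by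
  rw [bta_d11u, bta_d22u]
  unfold uf mu
  rw [← Finset.sum_add_distrib, Finset.mul_sum]
  refine Finset.sum_congr rfl fun i _ => ?_
  have h := Ci_Bi κ i
  have h3 : (√3 : ℝ) ^ 2 = 3 := Real.sq_sqrt (by norm_num)
  have h4 : (√3 : ℝ) ≠ 0 := by positivity
  rw [inv_div]
  have h5 : (Ci κ i * Real.pi / √3) * (Ci κ i * Real.pi / √3) = Real.pi ^ 2 * Ci κ i ^ 2 / 3 := by
    rw [div_mul_div_comm, ← pow_two (√3), h3]
    ring
  generalize Real.sin (Ci κ i * (Real.pi * x.1 / √3)) = s1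
  generalize Real.sin (Bi κ i * (Real.pi * x.2 / 3)) = s2
  have h6 : 4 * Real.pi ^ 2 * nrm κ / 9 =
      Real.pi ^ 2 * Ci κ i ^ 2 / 3 + Real.pi ^ 2 * Bi κ i ^ 2 / 9 := by
    linear_combination (-(Real.pi ^ 2 / 9)) * h
  rw [h6, ← h5]
  ring

theorem uf_bd1 (κ : KS) (x : ℝ) : uf κ (x, 0) = 0 := by
  unfold uf
  refine Finset.sum_eq_zero fun i _ => ?_
  simp

theorem uf_bd2 (κ : KS) (y : ℝ) : uf κ (√3, y) = 0 := by
  unfold uf
  refine Finset.sum_eq_zero fun i _ => ?_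
  have h4 : (√3 : ℝ) ≠ 0 := by positivity
  simp only
  rw [mul_div_assoc, div_self h4, mul_one, Real.sin_int_mul_pi, zero_mul]

theorem uf_bd3 (κ : KS) (y : ℝ) : uf κ (√3 * y, y) = 0 := by
  obtain ⟨c0, c1, c2, b0, b1, b2⟩ := bta_half κ
  have h4 : (√3 : ℝ) ≠ 0 := by positivity
  have key : ∀ c b : ℝ, Real.sin (c * (Real.pi * (√3 * y) / √3)) *
      Real.sin (b * (Real.pi * y / 3)) =
      (Real.cos ((3 * c - b) * (Real.pi * y / 3)) -
        Real.cos ((3 * c + b) * (Real.pi * y / 3))) / 2 := by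
    intro c b
    have e1 : c * (Real.pi * (√3 * y) / √3) = 3 * c * (Real.pi * y / 3) := by
      field_simp
    rw [e1, sub_mul, add_mul, Real.cos_sub, Real.cos_add]
    ring
  unfold uf
  rw [Fin.sum_univ_three]
  simp only [key]
  rw [c0, c1, c2, b0, b1, b2]
  generalize (κ.1.1 : ℝ) = M
  generalize (κ.1.2 : ℝ) = N
  generalize Real.pi * y / 3 = σ
  have e1 : (3 * ((M - N) / 2) - (3 * M + N) / 2) * σ = -(2 * N * σ) := by ring
  have e2 : (3 * ((M - N) / 2) + (3 * M + N) / 2) * σ = (3 * M - N) * σ := by ring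
  have e3 : (3 * (-((M + N) / 2)) - (3 * M - N) / 2) * σ = -((3 * M + N) * σ) := by ring
  have e4 : (3 * (-((M + N) / 2)) + (3 * M - N) / 2) * σ = -(2 * N * σ) := by ring
  rw [e1, e2, e3, e4, Real.cos_neg, Real.cos_neg]
  ring

theorem d2_uf (κ : KS) (x : ℝ) : d2 (uf κ) (x, 0) = Real.pi / 3 * gO κ (x / √3) := by
  rw [bta_d2u]
  unfold gO
  rw [Finset.mul_sum]
  refine Finset.sum_congr rfl fun i _ => ?_
  simp only [mul_zero, zero_div, Real.cos_zero, mul_one]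
  rw [mul_div_assoc Real.pi x (√3)]
  ring

theorem d1_uf (κ : KS) (y : ℝ) : d1 (uf κ) (√3, y) = Real.pi / √3 * gA κ y := by
  rw [bta_d1u]
  unfold gA
  rw [Finset.mul_sum]
  refine Finset.sum_congr rfl fun i _ => ?_
  have h4 : (√3 : ℝ) ≠ 0 := by positivity
  simp only
  rw [mul_div_assoc Real.pi (√3) (√3), div_self h4, mul_one]
  ring

theorem summable_mu : Summable (fun κ => mu κ ^ 2) := by
  have h1 : Summable (fun n : ℕ => 1 / (n : ℝ) ^ 2) := Real.summable_one_div_nat_pow.2 (by norm_num)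
  have h2 : Summable (fun p : ℕ × ℕ => (1 / (p.1 : ℝ) ^ 2) * (1 / (p.2 : ℝ) ^ 2)) :=
    h1.mul_of_nonneg h1 (fun n => by positivity) (fun n => by positivity)
  have h3 : Summable (fun κ : KS => (1 / (κ.1.1 : ℝ) ^ 2) * (1 / (κ.1.2 : ℝ) ^ 2)) :=
    h2.subtype _
  refine Summable.of_nonneg_of_le (fun κ => by positivity) (fun κ => ?_)
    (h3.mul_left ((9 / (2 * Real.pi ^ 2)) ^ 2))
  have hM : (0 : ℝ) < κ.1.1 := by
    exact_mod_cast lt_of_lt_of_le Nat.zero_lt_one κ.2.1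
  have hN : (0 : ℝ) < κ.1.2 := by
    exact_mod_cast lt_of_le_of_lt (Nat.zero_le _) κ.2.2.1
  have h4 : (κ.1.1 : ℝ) * κ.1.2 / 2 ≤ nrm κ := by
    unfold nrm
    nlinarith [sq_nonneg ((κ.1.1 : ℝ) - κ.1.2), sq_nonneg (κ.1.1 : ℝ)]
  have h5 : (0 : ℝ) < κ.1.1 * κ.1.2 := mul_pos hM hN
  have h6 : mu κ ≤ 9 / (2 * Real.pi ^ 2) * (1 / (κ.1.1 * κ.1.2)) := by
    unfold mu
    have e : 9 / (2 * Real.pi ^ 2) * (1 / ((κ.1.1 : ℝ) * κ.1.2)) =
        9 / (4 * Real.pi ^ 2 * ((κ.1.1 : ℝ) * κ.1.2 / 2)) := by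
      field_simp
      ring
    rw [e]
    exact div_le_div_of_nonneg_left (by norm_num) (by positivity)
      (mul_le_mul_of_nonneg_left h4 (by positivity))
  have h7 : 0 ≤ mu κ := by
    have := nrm_pos κ
    unfold mu
    have : 0 < nrm κ := by linarith
    positivity
  calc mu κ ^ 2 ≤ (9 / (2 * Real.pi ^ 2) * (1 / (κ.1.1 * κ.1.2))) ^ 2 := by
        exact pow_le_pow_left₀ h7 h6 2
    _ = (9 / (2 * Real.pi ^ 2)) ^ 2 * ((1 / (κ.1.1 : ℝ) ^ 2) * (1 / (κ.1.2 : ℝ) ^ 2)) := by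
        rw [mul_pow, one_div, one_div, one_div, inv_pow, mul_pow, mul_inv]

private theorem bta_B (κ : KS) (i : Fin 3) : |(Bi κ i : ℝ)| ≤ 2 * √(nrm κ) := by
  have h := Ci_Bi κ i
  have h0 : 0 ≤ nrm κ := by linarith [nrm_pos κ]
  refine abs_le_of_sq_le_sq ?_ (by positivity)
  rw [mul_pow, Real.sq_sqrt h0]
  nlinarith [sq_nonneg (Ci κ i : ℝ)]

private theorem bta_C (κ : KS) (i : Fin 3) : |(Ci κ i : ℝ)| ≤ 2 * √(nrm κ) := by
  have h := Ci_Bi κ i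
  have h0 : 0 ≤ nrm κ := by linarith [nrm_pos κ]
  refine abs_le_of_sq_le_sq ?_ (by positivity)
  rw [mul_pow, Real.sq_sqrt h0]
  nlinarith [sq_nonneg (Bi κ i : ℝ), sq_nonneg (Ci κ i : ℝ)]

theorem abs_gO (κ : KS) (t : ℝ) : |gO κ t| ≤ 6 * √(nrm κ) := by
  unfold gO
  refine (Finset.abs_sum_le_sum_abs _ _).trans ?_
  have h : ∀ i ∈ (Finset.univ : Finset (Fin 3)),
      |(Bi κ i : ℝ) * Real.sin (Ci κ i * (Real.pi * t))| ≤ 2 * √(nrm κ) := by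
    intro i _
    rw [abs_mul]
    exact (mul_le_of_le_one_right (abs_nonneg _) (Real.abs_sin_le_one _)).trans (bta_B κ i)
  refine (Finset.sum_le_sum h).trans ?_
  rw [Finset.sum_const, Finset.card_univ, Fintype.card_fin, nsmul_eq_mul]
  push_cast
  linarith

theorem abs_gA (κ : KS) (t : ℝ) : |gA κ t| ≤ 6 * √(nrm κ) := by
  unfold gA
  refine (Finset.abs_sum_le_sum_abs _ _).trans ?_
  have h : ∀ i ∈ (Finset.univ : Finset (Fin 3)),
      |(Ci κ i : ℝ) * Real.cos (Ci κ i * Real.pi) * Real.sin (Bi κ i * (Real.pi * t / 3))| ≤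
        2 * √(nrm κ) := by
    intro i _
    rw [abs_mul, abs_mul]
    exact (mul_le_of_le_one_right (by positivity) (Real.abs_sin_le_one _)).trans
      ((mul_le_of_le_one_right (abs_nonneg _) (Real.abs_cos_le_one _)).trans (bta_C κ i))
  refine (Finset.sum_le_sum h).trans ?_
  rw [Finset.sum_const, Finset.card_univ, Fintype.card_fin, nsmul_eq_mul]
  push_cast
  linarith

end Pool.Agent.MP4eed4eP
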