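import Pool.Agent.Lib.MP_4eed4e_an_PB.BDefs

set_option autoImplicit false

/-!
Project P, block B, module BSc: calculus of the sine functions of the square.

`d1 (ss p) x = 2 a cos (a x.1) sin (b x.2)`, `d2 (ss p) x = 2 b sin (a x.1) cos (b x.2)`,
`a = (p.1 + 1) π`, `b = (p.2 + 1) π`; the second derivatives are `- a² ss p`, `- b² ss p`, and
`lams p = a² + b²`. The integral over `Sq` of a product of functions of one variable is the product
of the integrals; `∫_0^1 sin (k π x) sin (l π x) = ∫_0^1 cos (k π x) cos (l π x) = δ_{kl} / 2` for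
`k, l ≥ 1` (product formulas and `integral_cos`, `sin (n π) = 0`).
-/

namespace Pool.Agent.MP4eed4eP

open MeasureTheory Set

private theorem bsc_d1 {u v : ℝ → ℝ} {u' : ℝ} {x : P} (hu : HasDerivAt u u' x.1)
    (hv : DifferentiableAt ℝ v x.2) : d1 (fun y : P => u y.1 * v y.2) x = u' * v x.2 := by
  have h1 := hu.hasFDerivAt.comp x (hasFDerivAt_fst (𝕜 := ℝ) (E := ℝ) (F := ℝ))
  have h2 := hv.hasDerivAt.hasFDerivAt.comp x (hasFDerivAt_snd (𝕜 := ℝ) (E := ℝ) (F := ℝ))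
  have h3 := h1.mul h2
  have h4 : HasFDerivAt (fun y : P => u y.1 * v y.2) _ x := h3
  rw [d1, h4.fderiv]
  simp
  ring

private theorem bsc_d2 {u v : ℝ → ℝ} {v' : ℝ} {x : P} (hu : DifferentiableAt ℝ u x.1)
    (hv : HasDerivAt v v' x.2) : d2 (fun y : P => u y.1 * v y.2) x = u x.1 * v' := by
  have h1 := hu.hasDerivAt.hasFDerivAt.comp x (hasFDerivAt_fst (𝕜 := ℝ) (E := ℝ) (F := ℝ))
  have h2 := hv.hasFDerivAt.comp x (hasFDerivAt_snd (𝕜 := ℝ) (E := ℝ) (F := ℝ))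
  have h3 := h1.mul h2
  have h4 : HasFDerivAt (fun y : P => u y.1 * v y.2) _ x := h3
  rw [d2, h4.fderiv]
  simp

private theorem bsc_lin (a t : ℝ) : HasDerivAt (fun s : ℝ => a * s) a t := by
  simpa using (hasDerivAt_id t).const_mul a

private theorem bsc_sin (c a t : ℝ) :
    HasDerivAt (fun s : ℝ => c * Real.sin (a * s)) (c * (Real.cos (a * t) * a)) t :=
  ((bsc_lin a t).sin).const_mul c

private theorem bsc_cos (c a t : ℝ) :
    HasDerivAt (fun s : ℝ => c * Real.cos (a * s)) (c * (-Real.sin (a * t) * a)) t :=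
  ((bsc_lin a t).cos).const_mul c

private theorem bsc_sin' (a t : ℝ) :
    HasDerivAt (fun s : ℝ => Real.sin (a * s)) (Real.cos (a * t) * a) t :=
  (bsc_lin a t).sin

private theorem bsc_cos' (c a t : ℝ) :
    HasDerivAt (fun s : ℝ => Real.cos (a * s) * c) (-Real.sin (a * t) * a * c) t :=
  ((bsc_lin a t).cos).mul_const c

private theorem bsc_ss1 (p : ℕ × ℕ) : d1 (ss p) = fun x : P =>
    (2 * ((p.1 + 1 : ℝ) * Real.pi)) * Real.cos ((p.1 + 1 : ℝ) * Real.pi * x.1) *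
      Real.sin ((p.2 + 1 : ℝ) * Real.pi * x.2) := by
  funext x
  have h := bsc_d1 (x := x) (bsc_sin 2 ((p.1 + 1 : ℝ) * Real.pi) x.1)
    (bsc_sin' ((p.2 + 1 : ℝ) * Real.pi) x.2).differentiableAt
  have h1 : d1 (ss p) x = _ := h
  rw [h1]
  ring

private theorem bsc_ss2 (p : ℕ × ℕ) : d2 (ss p) = fun x : P =>
    (2 * Real.sin ((p.1 + 1 : ℝ) * Real.pi * x.1)) *
      (Real.cos ((p.2 + 1 : ℝ) * Real.pi * x.2) * ((p.2 + 1 : ℝ) * Real.pi)) := by
  funext x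
  exact bsc_d2 (x := x) (bsc_sin 2 ((p.1 + 1 : ℝ) * Real.pi) x.1).differentiableAt
    (bsc_sin' ((p.2 + 1 : ℝ) * Real.pi) x.2)

private theorem bsc_int (c : ℤ) :
    ∫ x in (0 : ℝ)..1, Real.cos ((c : ℝ) * Real.pi * x) = if c = 0 then 1 else 0 := by
  by_cases hc : c = 0
  · rw [if_pos hc, hc]
    simp
  · rw [if_neg hc]
    have h1 : (c : ℝ) * Real.pi ≠ 0 := mul_ne_zero (Int.cast_ne_zero.2 hc) Real.pi_ne_zero
    rw [intervalIntegral.integral_comp_mul_left (fun x => Real.cos x) h1, integral_cos, mul_one,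
      mul_zero, Real.sin_int_mul_pi, Real.sin_zero, sub_zero, smul_zero]

private theorem bsc_cosint (c : ℤ) : IntervalIntegrable
    (fun x : ℝ => Real.cos ((c : ℝ) * Real.pi * x)) volume 0 1 :=
  (by fun_prop : Continuous fun x : ℝ => Real.cos ((c : ℝ) * Real.pi * x)).intervalIntegrable _ _

private theorem bsc_ioo (f : ℝ → ℝ) : ∫ x in Ioo (0 : ℝ) 1, f x = ∫ x in (0 : ℝ)..1, f x := by
  rw [intervalIntegral.integral_of_le zero_le_one, integral_Ioc_eq_integral_Ioo]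

private theorem bsc_ssin (k l : ℕ) :
    ∫ x in Ioo (0 : ℝ) 1, Real.sin ((k + 1 : ℝ) * Real.pi * x) *
      Real.sin ((l + 1 : ℝ) * Real.pi * x) = if k = l then 1 / 2 else 0 := by
  rw [bsc_ioo]
  have h1 : ∀ x : ℝ, Real.sin ((k + 1 : ℝ) * Real.pi * x) * Real.sin ((l + 1 : ℝ) * Real.pi * x) =
      (1 / 2) * (Real.cos ((((k : ℤ) - l : ℤ) : ℝ) * Real.pi * x) -
        Real.cos ((((k : ℤ) + l + 2 : ℤ) : ℝ) * Real.pi * x)) := by
    intro x
    have e1 : (((k : ℤ) - l : ℤ) : ℝ) * Real.pi * x =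
        (k + 1 : ℝ) * Real.pi * x - (l + 1 : ℝ) * Real.pi * x := by
      push_cast
      ring
    have e2 : (((k : ℤ) + l + 2 : ℤ) : ℝ) * Real.pi * x =
        (k + 1 : ℝ) * Real.pi * x + (l + 1 : ℝ) * Real.pi * x := by
      push_cast
      ring
    rw [e1, e2, Real.cos_sub, Real.cos_add]
    ring
  simp_rw [h1]
  rw [intervalIntegral.integral_const_mul, intervalIntegral.integral_sub (bsc_cosint _)
    (bsc_cosint _), bsc_int, bsc_int, if_neg (show ¬ ((k : ℤ) + l + 2 = 0) by omega)]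
  by_cases h : k = l
  · rw [if_pos h, if_pos (by omega)]
    norm_num
  · rw [if_neg h, if_neg (by omega)]
    norm_num

private theorem bsc_ccos (k l : ℕ) :
    ∫ x in Ioo (0 : ℝ) 1, Real.cos ((k + 1 : ℝ) * Real.pi * x) *
      Real.cos ((l + 1 : ℝ) * Real.pi * x) = if k = l then 1 / 2 else 0 := by
  rw [bsc_ioo]
  have h1 : ∀ x : ℝ, Real.cos ((k + 1 : ℝ) * Real.pi * x) * Real.cos ((l + 1 : ℝ) * Real.pi * x) =
      (1 / 2) * (Real.cos ((((k : ℤ) - l : ℤ) : ℝ) * Real.pi * x) +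
        Real.cos ((((k : ℤ) + l + 2 : ℤ) : ℝ) * Real.pi * x)) := by
    intro x
    have e1 : (((k : ℤ) - l : ℤ) : ℝ) * Real.pi * x =
        (k + 1 : ℝ) * Real.pi * x - (l + 1 : ℝ) * Real.pi * x := by
      push_cast
      ring
    have e2 : (((k : ℤ) + l + 2 : ℤ) : ℝ) * Real.pi * x =
        (k + 1 : ℝ) * Real.pi * x + (l + 1 : ℝ) * Real.pi * x := by
      push_cast
      ring
    rw [e1, e2, Real.cos_sub, Real.cos_add]
    ring
  simp_rw [h1]
  rw [intervalIntegral.integral_const_mul, intervalIntegral.integral_add (bsc_cosint _)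
    (bsc_cosint _), bsc_int, bsc_int, if_neg (show ¬ ((k : ℤ) + l + 2 = 0) by omega)]
  by_cases h : k = l
  · rw [if_pos h, if_pos (by omega)]
    norm_num
  · rw [if_neg h, if_neg (by omega)]
    norm_num

private theorem bsc_prod (f g : ℝ → ℝ) :
    ∫ x in Sq, f x.1 * g x.2 = (∫ x in Ioo (0 : ℝ) 1, f x) * ∫ x in Ioo (0 : ℝ) 1, g x := by
  rw [Sq, Measure.volume_eq_prod]
  exact setIntegral_prod_mul f g (Ioo 0 1) (Ioo 0 1)

private theorem bsc_integrable {f : P → ℝ} (hf : Continuous f) : IntegrableOn f Sq :=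
  (hf.continuousOn.integrableOn_compact (isCompact_Icc.prod isCompact_Icc)).mono_set
    (prod_mono Ioo_subset_Icc_self Ioo_subset_Icc_self :
      Sq ⊆ Icc (0 : ℝ) 1 ×ˢ Icc (0 : ℝ) 1)

theorem contDiff_ss (p : ℕ × ℕ) : ContDiff ℝ ⊤ (ss p) := by
  unfold ss
  exact (contDiff_const.mul (Real.contDiff_sin.comp (contDiff_const.mul contDiff_fst))).mul
    (Real.contDiff_sin.comp (contDiff_const.mul contDiff_snd))

theorem lap_ss (p : ℕ × ℕ) (x : P) :
    d1 (d1 (ss p)) x + d2 (d2 (ss p)) x = -lams p * ss p x := by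
  rw [bsc_ss1, bsc_ss2]
  have h1 := bsc_d1 (x := x) (bsc_cos (2 * ((p.1 + 1 : ℝ) * Real.pi)) ((p.1 + 1 : ℝ) * Real.pi) x.1)
    (bsc_sin' ((p.2 + 1 : ℝ) * Real.pi) x.2).differentiableAt
  have h2 := bsc_d2 (x := x) (bsc_sin 2 ((p.1 + 1 : ℝ) * Real.pi) x.1).differentiableAt
    (bsc_cos' ((p.2 + 1 : ℝ) * Real.pi) ((p.2 + 1 : ℝ) * Real.pi) x.2)
  rw [h1, h2, ss, lams]
  ring

theorem grad_ss (p q : ℕ × ℕ) :
    ∫ x in Sq, (d1 (ss p) x * d1 (ss q) x + d2 (ss p) x * d2 (ss q) x) =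
      if p = q then lams p else 0 := by
  rw [bsc_ss1, bsc_ss1, bsc_ss2, bsc_ss2]
  have h1 : ∀ x : P, (2 * ((p.1 + 1 : ℝ) * Real.pi)) * Real.cos ((p.1 + 1 : ℝ) * Real.pi * x.1) *
      Real.sin ((p.2 + 1 : ℝ) * Real.pi * x.2) * ((2 * ((q.1 + 1 : ℝ) * Real.pi)) *
      Real.cos ((q.1 + 1 : ℝ) * Real.pi * x.1) * Real.sin ((q.2 + 1 : ℝ) * Real.pi * x.2)) =
      (4 * ((p.1 + 1 : ℝ) * Real.pi) * ((q.1 + 1 : ℝ) * Real.pi)) *
      ((Real.cos ((p.1 + 1 : ℝ) * Real.pi * x.1) * Real.cos ((q.1 + 1 : ℝ) * Real.pi * x.1)) *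
      (Real.sin ((p.2 + 1 : ℝ) * Real.pi * x.2) * Real.sin ((q.2 + 1 : ℝ) * Real.pi * x.2))) := by
    intro x
    ring
  have h2 : ∀ x : P, (2 * Real.sin ((p.1 + 1 : ℝ) * Real.pi * x.1)) *
      (Real.cos ((p.2 + 1 : ℝ) * Real.pi * x.2) * ((p.2 + 1 : ℝ) * Real.pi)) *
      ((2 * Real.sin ((q.1 + 1 : ℝ) * Real.pi * x.1)) *
      (Real.cos ((q.2 + 1 : ℝ) * Real.pi * x.2) * ((q.2 + 1 : ℝ) * Real.pi))) =
      (4 * ((p.2 + 1 : ℝ) * Real.pi) * ((q.2 + 1 : ℝ) * Real.pi)) *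
      ((Real.sin ((p.1 + 1 : ℝ) * Real.pi * x.1) * Real.sin ((q.1 + 1 : ℝ) * Real.pi * x.1)) *
      (Real.cos ((p.2 + 1 : ℝ) * Real.pi * x.2) * Real.cos ((q.2 + 1 : ℝ) * Real.pi * x.2))) := by
    intro x
    ring
  simp_rw [h1, h2]
  rw [integral_add (bsc_integrable (by fun_prop)) (bsc_integrable (by fun_prop)),
    integral_const_mul, integral_const_mul,
    bsc_prod (fun t => Real.cos ((p.1 + 1 : ℝ) * Real.pi * t) *
      Real.cos ((q.1 + 1 : ℝ) * Real.pi * t)) (fun t => Real.sin ((p.2 + 1 : ℝ) * Real.pi * t) *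
      Real.sin ((q.2 + 1 : ℝ) * Real.pi * t)),
    bsc_prod (fun t => Real.sin ((p.1 + 1 : ℝ) * Real.pi * t) *
      Real.sin ((q.1 + 1 : ℝ) * Real.pi * t)) (fun t => Real.cos ((p.2 + 1 : ℝ) * Real.pi * t) *
      Real.cos ((q.2 + 1 : ℝ) * Real.pi * t)), bsc_ssin, bsc_ssin, bsc_ccos, bsc_ccos]
  by_cases h : p = q
  · subst h
    rw [if_pos rfl, if_pos rfl, if_pos rfl, lams]
    ring
  · rw [if_neg h]
    by_cases h3 : p.1 = q.1
    · rw [if_neg (fun h4 => h (Prod.ext h3 h4))]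
      ring
    · rw [if_neg h3]
      ring

end Pool.Agent.MP4eed4eP
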