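import Pool.Agent.Lib.MP_4eed4e_an_P.PBase

set_option autoImplicit false

/-!
Project P, block B, module BTb: the simple eigenvalues `7 · 16^j`.

PROOF. `nrm κ = 7 · 16^j` means `3 M² + M'² = 28 · 16^j` (natural numbers). Induction on `j`.
`j = 0`: `3 M² + M'² = 28`, `M ≥ 1`, `M' > 3 M`, so `12 M² < 28`, `M = 1`, `M' = 5`.
`j + 1`: `3 M² + M'² = 0 mod 64`. `M = M' mod 2`. If both were odd then `3 M² + M'² = 4 mod 8`, a
contradiction; so `M = 2 a`, `M' = 2 b`, `3 a² + b² = 28 · 16^j · 4 = 0 mod 16`. Modulo `4` the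
squares are `0, 1`, so `3 a² + b² = 0 mod 4` gives `a = b mod 2`; both odd would give `3 a² + b² =
4 mod 8`, a contradiction; so `a = 2 a'`, `b = 2 b'`, `3 a'² + b'² = 28 · 16^j`, and again
`3 a'² + b'² = 0 mod 4` gives `a' = b' mod 2`; `a' ≥ 1`, `b' > 3 a'`. By induction
`(a', b') = (4^j, 5 · 4^j)`.
-/

namespace Pool.Agent.MP4eed4eP

private theorem btb_two {a b N : ℕ} (h : 3 * a ^ 2 + b ^ 2 = 8 * N) :
    ∃ a' b', a = 2 * a' ∧ b = 2 * b' := by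
  rcases Nat.even_or_odd' a with ⟨a', rfl | rfl⟩
  · rcases Nat.even_or_odd' b with ⟨b', rfl | rfl⟩
    · exact ⟨a', b', rfl, rfl⟩
    · have h1 : 3 * (2 * a') ^ 2 + (2 * b' + 1) ^ 2 =
          2 * (6 * a' ^ 2 + 2 * b' ^ 2 + 2 * b') + 1 := by ring
      omega
  · rcases Nat.even_or_odd' b with ⟨b', rfl | rfl⟩
    · have h1 : 3 * (2 * a' + 1) ^ 2 + (2 * b') ^ 2 =
          2 * (6 * a' ^ 2 + 6 * a' + 2 * b' ^ 2 + 1) + 1 := by ring
      omega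
    · obtain ⟨s, hs⟩ := Nat.even_mul_succ_self a'
      obtain ⟨t, ht⟩ := Nat.even_mul_succ_self b'
      have h1 : 3 * (2 * a' + 1) ^ 2 + (2 * b' + 1) ^ 2 =
          12 * (a' * (a' + 1)) + 4 * (b' * (b' + 1)) + 4 := by ring
      have h2 : a' * (a' + 1) = s + s := hs
      have h3 : b' * (b' + 1) = t + t := ht
      omega

private theorem btb_main : ∀ j M M' : ℕ, 1 ≤ M → 3 * M < M' → 3 * M ^ 2 + M' ^ 2 = 28 * 16 ^ j →
    M = 4 ^ j ∧ M' = 5 * 4 ^ j := by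
  intro j
  induction j with
  | zero =>
    intro M M' h1 h2 h3
    rw [pow_zero, mul_one] at h3
    have h4 : M' ≤ 5 := by nlinarith
    have h5 : M ≤ 1 := by nlinarith
    have h6 : M = 1 := le_antisymm h5 h1
    subst h6
    have h7 : 4 ≤ M' := h2
    interval_cases M'
    · omega
    · exact ⟨rfl, rfl⟩
  | succ j ih =>
    intro M M' h1 h2 h3
    obtain ⟨a, b, rfl, rfl⟩ : ∃ a b, M = 2 * a ∧ M' = 2 * b :=
      btb_two (N := 56 * 16 ^ j) (by rw [h3]; ring)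
    have h4 : 3 * a ^ 2 + b ^ 2 = 8 * (14 * 16 ^ j) := by
      have h5 : 3 * (2 * a) ^ 2 + (2 * b) ^ 2 = 4 * (3 * a ^ 2 + b ^ 2) := by ring
      have h6 : 28 * 16 ^ (j + 1) = 4 * (8 * (14 * 16 ^ j)) := by ring
      omega
    obtain ⟨a', b', rfl, rfl⟩ : ∃ a' b', a = 2 * a' ∧ b = 2 * b' := btb_two h4
    have h7 : 3 * a' ^ 2 + b' ^ 2 = 28 * 16 ^ j := by
      have h5 : 3 * (2 * a') ^ 2 + (2 * b') ^ 2 = 4 * (3 * a' ^ 2 + b' ^ 2) := by ring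
      omega
    obtain ⟨h8, h9⟩ := ih a' b' (by omega) (by omega) h7
    rw [h8, h9, pow_succ]
    constructor <;> ring

theorem nrm_eq_seven (κ : KS) (j : ℕ) (h : nrm κ = 7 * 16 ^ j) : κ.1 = (4 ^ j, 5 * 4 ^ j) := by
  obtain ⟨⟨M, M'⟩, h1, h2, h3⟩ := κ
  unfold nrm at h
  dsimp only at h h1 h2 h3 ⊢
  have h4 : 3 * M ^ 2 + M' ^ 2 = 28 * 16 ^ j := by
    have h5 : (3 : ℝ) * (M : ℝ) ^ 2 + (M' : ℝ) ^ 2 = 28 * 16 ^ j := by linarith
    exact_mod_cast h5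
  obtain ⟨h6, h7⟩ := btb_main j M M' h1 h2 h4
  rw [h6, h7]

end Pool.Agent.MP4eed4eP
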