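import Pool.Agent.Lib.MP_4eed4e_an_PB.BTz

set_option autoImplicit false

/-!
Project P, block B, module BTc: orthogonality of the eigenfunctions on `T0`.

PROOF. By `integral_R0` for `g = uf κ * uf κ'` (continuous, `R0` bounded) and `uz_rf`, `uz_rt`,
`uz_pt` (each of the six maps changes `uf κ` and `uf κ'` by the same sign) `∫_{R0} uf κ uf κ' = 6
∫_{T0} uf κ uf κ'`. `ortho_ts`: `∫_{R0} ts C B ts C' B' = (∫_0^{√3} ..) (∫_0^3 ..)`, for nonzero
integers `∫_0^{√3} sin (C π x/√3) sin (C' π x/√3) dx = (√3/2) (δ_{C,C'} - δ_{C,-C'})`, and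
`∫_0^3 sin (B π y/3) sin (B' π y/3) dy = (3/2) (δ_{B,B'} - δ_{B,-B'})`.
For `κ ∈ KS` (`1 ≤ M`, `3 M < M'`): `C_0 = M > 0`, `C_1 = (M - M')/2 < 0`, `C_2 = -(M + M')/2 < 0`,
with `|C_0| < |C_1| < |C_2|` (`2 M < M' - M < M' + M`), and `B_0 = M' > 0`, `B_1 = (3M + M')/2 > 0`,
`B_2 = (3M - M')/2 < 0`. So the three pairs of one `κ` have different `|C_i|` and the integral of
`uf κ ²` is `3 (√3/2)(3/2)`. For `κ ≠ κ'`: `C_i = ± C'_j` and `B_i = ± B'_j` is impossible: all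
`(√3 |C_i|, |B_i|)` of one `κ` lie on the circle of radius `2 √nrm`, and in the different sectors
`|B_0| > 3 |C_0|`, `|C_1| < |B_1| < 3 |C_1|`, `|B_2| < |C_2|` (`3M + M' < 3 (M' - M)` iff `6 M < 2
M'`; `3M + M' > M' - M`; `M' - 3M < M + M'`), so `i = j`; and `(|C_i|, |B_i|)` determines `κ` (for
each `i` the linear map `(M, M') ↦ (|C_i|, |B_i|)` is injective).
-/

namespace Pool.Agent.MP4eed4eP

open MeasureTheory Set

private theorem btc_cos (k : ℤ) :
    ∫ x in (0 : ℝ)..Real.pi, Real.cos ((k : ℝ) * x) = if k = 0 then Real.pi else 0 := by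
  by_cases hk : k = 0
  · subst hk
    simp
  · rw [if_neg hk]
    have h1 : (k : ℝ) ≠ 0 := by exact_mod_cast hk
    rw [intervalIntegral.integral_comp_mul_left (fun x => Real.cos x) h1, integral_cos,
      Real.sin_int_mul_pi, mul_zero, Real.sin_zero, sub_zero, smul_zero]

private theorem btc_pi (C C' : ℤ) :
    ∫ x in (0 : ℝ)..Real.pi, Real.sin ((C : ℝ) * x) * Real.sin ((C' : ℝ) * x) =
      Real.pi / 2 * ((if C = C' then 1 else 0) - if C = -C' then 1 else 0) := by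
  have h1 : ∀ x : ℝ, Real.sin ((C : ℝ) * x) * Real.sin ((C' : ℝ) * x) =
      1 / 2 * Real.cos (((C - C' : ℤ) : ℝ) * x) - 1 / 2 * Real.cos (((C + C' : ℤ) : ℝ) * x) := by
    intro x
    have e1 : (((C - C' : ℤ) : ℝ) * x) = (C : ℝ) * x - (C' : ℝ) * x := by
      push_cast
      ring
    have e2 : (((C + C' : ℤ) : ℝ) * x) = (C : ℝ) * x + (C' : ℝ) * x := by
      push_cast
      ring
    rw [e1, e2, Real.cos_sub, Real.cos_add]
    ring
  simp_rw [h1]
  have hi : ∀ k : ℤ, IntervalIntegrable (fun x : ℝ => 1 / 2 * Real.cos ((k : ℝ) * x)) volume 0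
      Real.pi := fun k => (by fun_prop : Continuous fun x : ℝ =>
        1 / 2 * Real.cos ((k : ℝ) * x)).intervalIntegrable _ _
  rw [intervalIntegral.integral_sub (hi _) (hi _), intervalIntegral.integral_const_mul,
    intervalIntegral.integral_const_mul, btc_cos, btc_cos]
  simp only [sub_eq_zero, add_eq_zero_iff_eq_neg]
  split_ifs <;> ring

private theorem btc_L {L : ℝ} (hL : 0 < L) (C C' : ℤ) :
    ∫ x in Ioo 0 L, Real.sin ((C : ℝ) * (Real.pi * x / L)) *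
        Real.sin ((C' : ℝ) * (Real.pi * x / L)) =
      L / 2 * ((if C = C' then 1 else 0) - if C = -C' then 1 else 0) := by
  rw [← integral_Ioc_eq_integral_Ioo, ← intervalIntegral.integral_of_le hL.le]
  have hc : Real.pi / L ≠ 0 := (div_pos Real.pi_pos hL).ne'
  have h1 := intervalIntegral.integral_comp_mul_left (a := 0) (b := L)
    (fun x => Real.sin ((C : ℝ) * x) * Real.sin ((C' : ℝ) * x)) hc
  have e1 : Real.pi / L * L = Real.pi := div_mul_cancel₀ _ hL.ne'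
  rw [mul_zero, e1, btc_pi, smul_eq_mul] at h1
  have e2 : ∀ x : ℝ, Real.pi / L * x = Real.pi * x / L := fun x => by ring
  simp_rw [e2] at h1
  rw [h1]
  have h2 := Real.pi_ne_zero
  have h3 := hL.ne'
  field_simp

private theorem btc_cont (C B : ℤ) : Continuous (ts C B) := by
  unfold ts
  fun_prop

private theorem btc_int {f : P → ℝ} (hf : Continuous f) : IntegrableOn f R0 := by
  have h1 : IsCompact (Icc (0 : ℝ) √3 ×ˢ Icc (0 : ℝ) 3) := isCompact_Icc.prod isCompact_Icc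
  refine (hf.continuousOn.integrableOn_compact h1).mono_set ?_
  exact Set.prod_mono Ioo_subset_Icc_self Ioo_subset_Icc_self

private theorem btc_data (κ : KS) : ∃ M K : ℤ, 1 ≤ M ∧ M < K ∧ (κ.1.1 : ℤ) = M ∧
    (κ.1.2 : ℤ) = M + 2 * K ∧ Ci κ = ![M, -K, -(M + K)] ∧
      Bi κ = ![M + 2 * K, 2 * M + K, M - K] := by
  obtain ⟨h1, h2, h3⟩ := κ.2
  refine ⟨κ.1.1, ((κ.1.2 : ℤ) - κ.1.1) / 2, by omega, by omega, rfl, by omega, ?_, ?_⟩
  · unfold Ci
    have e1 : ((κ.1.1 : ℤ) - κ.1.2) / 2 = -(((κ.1.2 : ℤ) - κ.1.1) / 2) := by omega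
    have e2 : -(((κ.1.1 : ℤ) + κ.1.2) / 2) =
        -((κ.1.1 : ℤ) + ((κ.1.2 : ℤ) - κ.1.1) / 2) := by omega
    rw [e1, e2]
  · unfold Bi
    have e1 : (κ.1.2 : ℤ) = (κ.1.1 : ℤ) + 2 * (((κ.1.2 : ℤ) - κ.1.1) / 2) := by omega
    have e2 : (3 * (κ.1.1 : ℤ) + κ.1.2) / 2 =
        2 * (κ.1.1 : ℤ) + ((κ.1.2 : ℤ) - κ.1.1) / 2 := by omega
    have e3 : (3 * (κ.1.1 : ℤ) - κ.1.2) / 2 =
        (κ.1.1 : ℤ) - ((κ.1.2 : ℤ) - κ.1.1) / 2 := by omega
    rw [e2, e3, ← e1]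

private theorem btc_zero {a b : ℤ} (h1 : a ≠ b) (h2 : a ≠ -b) :
    ((if a = b then (1 : ℝ) else 0) - if a = -b then 1 else 0) = 0 := by
  rw [if_neg h1, if_neg h2, sub_zero]

private theorem btc_one {a : ℤ} (h : a ≠ 0) :
    ((if a = a then (1 : ℝ) else 0) - if a = -a then 1 else 0) = 1 := by
  rw [if_pos rfl, if_neg (by omega), sub_zero]

private theorem btc_key (κ κ' : KS) (i j : Fin 3) (h : ¬ (κ = κ' ∧ i = j)) :
    (Ci κ i ≠ Ci κ' j ∧ Ci κ i ≠ -Ci κ' j) ∨ (Bi κ i ≠ Bi κ' j ∧ Bi κ i ≠ -Bi κ' j) := by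
  obtain ⟨M, K, h1, h2, h3, h4, hC, hB⟩ := btc_data κ
  obtain ⟨M', K', h1', h2', h3', h4', hC', hB'⟩ := btc_data κ'
  have hne : i = j → ¬ (M = M' ∧ K = K') := by
    rintro hij ⟨hM, hK⟩
    refine h ⟨?_, hij⟩
    apply Subtype.ext
    apply Prod.ext <;> omega
  rw [hC, hB, hC', hB']
  fin_cases i <;> fin_cases j <;> simp at hne ⊢ <;> omega

private theorem btc_fac (κ κ' : KS) (i j : Fin 3) :
    ((if Ci κ i = Ci κ' j then (1 : ℝ) else 0) - if Ci κ i = -Ci κ' j then 1 else 0) *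
      ((if Bi κ i = Bi κ' j then 1 else 0) - if Bi κ i = -Bi κ' j then 1 else 0) =
        if κ = κ' ∧ i = j then 1 else 0 := by
  by_cases h : κ = κ' ∧ i = j
  · rw [if_pos h]
    obtain ⟨rfl, rfl⟩ := h
    obtain ⟨M, K, h1, h2, h3, h4, hC, hB⟩ := btc_data κ
    have e1 : Ci κ i ≠ 0 := by
      rw [hC]
      fin_cases i <;> simp <;> omega
    have e2 : Bi κ i ≠ 0 := by
      rw [hB]
      fin_cases i <;> simp <;> omega
    rw [btc_one e1, btc_one e2, mul_one]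
  · rw [if_neg h]
    rcases btc_key κ κ' i j h with ⟨h1, h2⟩ | ⟨h1, h2⟩
    · rw [btc_zero h1 h2, zero_mul]
    · rw [btc_zero h1 h2, mul_zero]

private theorem btc_ne (κ : KS) (i : Fin 3) : Ci κ i ≠ 0 ∧ Bi κ i ≠ 0 := by
  obtain ⟨M, K, h1, h2, h3, h4, hC, hB⟩ := btc_data κ
  refine ⟨?_, ?_⟩
  · rw [hC]
    fin_cases i <;> simp <;> omega
  · rw [hB]
    fin_cases i <;> simp <;> omega

theorem ortho_ts {C B C' B' : ℤ} (hC : C ≠ 0) (hB : B ≠ 0) (hC' : C' ≠ 0) (hB' : B' ≠ 0) :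
    ∫ v in R0, ts C B v * ts C' B' v =
      (√3 / 2 * ((if C = C' then 1 else 0) - if C = -C' then 1 else 0)) *
        (3 / 2 * ((if B = B' then 1 else 0) - if B = -B' then 1 else 0)) := by
  have h3 : (0 : ℝ) < √3 := Real.sqrt_pos.2 (by norm_num)
  have h1 := setIntegral_prod_mul (μ := (volume : Measure ℝ)) (ν := (volume : Measure ℝ))
    (fun x : ℝ => Real.sin ((C : ℝ) * (Real.pi * x / √3)) *
      Real.sin ((C' : ℝ) * (Real.pi * x / √3)))
    (fun y : ℝ => Real.sin ((B : ℝ) * (Real.pi * y / 3)) *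
      Real.sin ((B' : ℝ) * (Real.pi * y / 3))) (Ioo 0 √3) (Ioo 0 3)
  rw [btc_L h3, btc_L (by norm_num : (0 : ℝ) < 3)] at h1
  rw [← h1]
  refine setIntegral_congr_fun (measurableSet_Ioo.prod measurableSet_Ioo) fun v _ => ?_
  simp only [ts]
  ring

theorem orth_uf (κ κ' : KS) :
    ∫ x in T0, uf κ x * uf κ' x = if κ = κ' then 3 * √3 / 8 else 0 := by
  have hu : ∀ (κ : KS) (v : P), uf κ v = ∑ i, ts (Ci κ i) (Bi κ i) v := fun _ _ => rfl
  have hcont : ∀ κ : KS, Continuous (uf κ) := by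
    intro κ
    have h1 : uf κ = fun v => ∑ i, ts (Ci κ i) (Bi κ i) v := funext (hu κ)
    rw [h1]
    exact continuous_finsetSum _ fun i _ => btc_cont _ _
  have hpar : ∀ κ : KS, (κ.1.1 : ℤ) % 2 = (κ.1.2 : ℤ) % 2 := by
    intro κ
    have h1 := κ.2.2.2
    omega
  have hrf : ∀ (κ : KS) v, uf κ (rf v) = -uf κ v := fun κ v => by
    rw [uf_eq_uz, uf_eq_uz, uz_rf (hpar κ)]
  have hrt : ∀ (κ : KS) v, uf κ (rt v) = uf κ v := fun κ v => by
    rw [uf_eq_uz, uf_eq_uz, uz_rt (hpar κ)]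
  have hpt : ∀ (κ : KS) v, uf κ (pt v) = uf κ v := fun κ v => by
    rw [uf_eq_uz, uf_eq_uz, uz_pt (hpar κ)]
  have hsix : ∀ (i : Fin 6) (v : P), uf κ (six i v) * uf κ' (six i v) = uf κ v * uf κ' v := by
    intro i v
    fin_cases i
    · rfl
    · show uf κ (rf v) * uf κ' (rf v) = _
      rw [hrf, hrf, neg_mul_neg]
    · show uf κ (rt v) * uf κ' (rt v) = _
      rw [hrt, hrt]
    · show uf κ (pt v) * uf κ' (pt v) = _
      rw [hpt, hpt]
    · show uf κ (pt (rf v)) * uf κ' (pt (rf v)) = _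
      rw [hpt, hpt, hrf, hrf, neg_mul_neg]
    · show uf κ (pt (rt v)) * uf κ' (pt (rt v)) = _
      rw [hpt, hpt, hrt, hrt]
  have h1 := integral_R0 (fun v => uf κ v * uf κ' v) (btc_int ((hcont κ).mul (hcont κ')))
  simp_rw [hsix] at h1
  rw [Finset.sum_const, Finset.card_univ, Fintype.card_fin, nsmul_eq_mul] at h1
  have h2 : ∫ v in R0, uf κ v * uf κ' v =
      ∑ i, ∑ j, ∫ v in R0, ts (Ci κ i) (Bi κ i) v * ts (Ci κ' j) (Bi κ' j) v := by
    have e1 : ∀ v, uf κ v * uf κ' v =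
        ∑ i, ∑ j, ts (Ci κ i) (Bi κ i) v * ts (Ci κ' j) (Bi κ' j) v := by
      intro v
      rw [hu, hu, Finset.sum_mul_sum]
    simp_rw [e1]
    rw [integral_finsetSum]
    · refine Finset.sum_congr rfl fun i _ => ?_
      rw [integral_finsetSum]
      intro j _
      exact btc_int ((btc_cont _ _).mul (btc_cont _ _))
    · intro i _
      exact btc_int (continuous_finsetSum _ fun j _ => (btc_cont _ _).mul (btc_cont _ _))
  have h3 : ∀ i j, ∫ v in R0, ts (Ci κ i) (Bi κ i) v * ts (Ci κ' j) (Bi κ' j) v =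
      3 * √3 / 4 * if κ = κ' ∧ i = j then 1 else 0 := by
    intro i j
    rw [ortho_ts (btc_ne κ i).1 (btc_ne κ i).2 (btc_ne κ' j).1 (btc_ne κ' j).2,
      ← btc_fac κ κ' i j]
    ring
  simp_rw [h3] at h2
  by_cases hκ : κ = κ'
  · rw [if_pos hκ]
    have h4 : (∑ i : Fin 3, ∑ j : Fin 3, 3 * √3 / 4 * if κ = κ' ∧ i = j then (1 : ℝ) else 0) =
        9 * √3 / 4 := by
      simp only [hκ, true_and, mul_ite, mul_one, mul_zero, Finset.sum_ite_eq, Finset.mem_univ,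
        if_true, Finset.sum_const, Finset.card_univ, Fintype.card_fin, nsmul_eq_mul]
      push_cast
      ring
    rw [h4] at h2
    rw [h2] at h1
    push_cast at h1
    linarith
  · rw [if_neg hκ]
    have h4 : (∑ i : Fin 3, ∑ j : Fin 3, 3 * √3 / 4 * if κ = κ' ∧ i = j then (1 : ℝ) else 0) =
        0 := by
      simp [hκ]
    rw [h4] at h2
    rw [h2] at h1
    push_cast at h1
    linarith

end Pool.Agent.MP4eed4eP
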