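import Mathlib

set_option autoImplicit false

/-!
Project P, block B, module BSa: Parseval's identity for the sine system on `(0, 1)`.

PROOF. Let `f` be in `L²(0, 1)`. Let `F : AddCircle (2 : ℝ) → ℂ` be the odd extension: the lift of
the function on `(-1, 1]` (or `(0, 2]`: `F x = f x` on `(0, 1)`, `F x = - f (2 - x)` on `(1, 2)`,
`0` at the other points), which is in `L²`. By `tsum_sq_fourierCoeff` / `hasSum_sq_fourierCoeff`
(`Mathlib.Analysis.Fourier.AddCircle`), `∑_{n : ℤ} ‖fourierCoeff F n‖² = ∫ ‖F‖²` (Haar probability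
measure) `= (1/2) ∫_0^2 |F|² = ∫_0^1 f²`. Moreover
`fourierCoeff F n = (1/2) ∫_0^2 exp (- i π n x) F x dx = - i ∫_0^1 sin (π n x) f x dx`, so
`‖fourierCoeff F n‖² = b_n²` with `b_n = ∫_0^1 sin (π n x) f x`, `b_0 = 0`, `b_{-n} = - b_n`. Hence
`∑_{n ≥ 1} 2 b_n² = ∫_0^1 f²`, and `(√2 b_n)² = 2 b_n²` (`n = m + 1`).
Another way: the functions `√2 sin ((m+1) π x)` are orthonormal in `L²(0,1)`; completeness: if `f`
is orthogonal to all of them then the odd extension has all Fourier coefficients `0`, so it is `0`;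
then `HilbertBasis` and Parseval. Choose what is easier.
-/

namespace Pool.Agent.MP4eed4eP

open MeasureTheory Set

private noncomputable def oddExt (f : ℝ → ℝ) : ℝ → ℂ :=
  (Ioi (0 : ℝ)).piecewise (fun x => (f x : ℂ)) (fun x => ((-f (-x) : ℝ) : ℂ))

private lemma oddExt_pos (f : ℝ → ℝ) {x : ℝ} (hx : 0 < x) : oddExt f x = (f x : ℂ) := by
  simp [oddExt, Set.piecewise, hx]

private lemma oddExt_neg (f : ℝ → ℝ) {x : ℝ} (hx : 0 < x) :
    oddExt f (-x) = -(f x : ℂ) := by
  have : ¬ (0 < -x) := by linarith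
  simp [oddExt, Set.piecewise, this]

private lemma memLp_oddExt (f : ℝ → ℝ) (hf : MemLp f 2 (volume.restrict (Ioo 0 1))) :
    MemLp (oddExt f) 2 (volume.restrict (Ioc (-1) 1)) := by
  have hc : MemLp (fun x => (f x : ℂ)) 2 (volume.restrict (Ioo 0 1)) := hf.ofReal
  refine MemLp.piecewise measurableSet_Ioi ?_ ?_
  · rw [Measure.restrict_restrict measurableSet_Ioi]
    have h1 : Ioi (0 : ℝ) ∩ Ioc (-1) 1 = Ioc 0 1 := by
      ext x; simp only [mem_inter_iff, mem_Ioi, mem_Ioc]; constructor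
      · rintro ⟨h, _, h3⟩; exact ⟨h, h3⟩
      · rintro ⟨h, h3⟩; exact ⟨h, by linarith, h3⟩
    rw [h1, Measure.restrict_congr_set Ioo_ae_eq_Ioc.symm]
    exact hc
  · rw [Measure.restrict_restrict measurableSet_Ioi.compl]
    have h1 : (Ioi (0 : ℝ))ᶜ ∩ Ioc (-1) 1 = Ioc (-1) 0 := by
      ext x; simp only [mem_inter_iff, mem_compl_iff, mem_Ioi, mem_Ioc, not_lt]; constructor
      · rintro ⟨h, h2, h3⟩; exact ⟨h2, h⟩
      · rintro ⟨h, h3⟩; exact ⟨h3, h, by linarith⟩
    rw [h1, Measure.restrict_congr_set Ioo_ae_eq_Ioc.symm]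
    have hmp : MeasurePreserving (fun x : ℝ => -x) (volume.restrict (Ioo (-1 : ℝ) 0))
        (volume.restrict (Ioo (0 : ℝ) 1)) := by
      have h2 := (Measure.measurePreserving_neg (volume : Measure ℝ)).restrict_preimage
        (measurableSet_Ioo (a := (0 : ℝ)) (b := 1))
      have h3 : Neg.neg ⁻¹' (Ioo (0 : ℝ) 1) = Ioo (-1 : ℝ) 0 := by
        ext x; simp only [mem_preimage, mem_Ioo]; constructor
        · rintro ⟨h, h2⟩; constructor <;> linarith
        · rintro ⟨h, h2⟩; constructor <;> linarith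
      rw [h3] at h2
      exact h2
    have h4 := (hf.neg.comp_measurePreserving hmp).ofReal (K := ℂ)
    exact h4

private lemma int_split (g : ℝ → ℂ) (hg : IntervalIntegrable g volume (-1) 1) :
    ∫ x in (-1 : ℝ)..1, g x = ∫ x in (0 : ℝ)..1, (g x + g (-x)) := by
  have h1 : IntervalIntegrable g volume (-1) 0 := by
    refine hg.mono_set ?_
    rw [uIcc_of_le (by norm_num), uIcc_of_le (by norm_num)]
    exact Icc_subset_Icc le_rfl (by norm_num)
  have h2 : IntervalIntegrable g volume 0 1 := by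
    refine hg.mono_set ?_
    rw [uIcc_of_le (by norm_num), uIcc_of_le (by norm_num)]
    exact Icc_subset_Icc (by norm_num) le_rfl
  have h3 : IntervalIntegrable (fun x => g (-x)) volume 0 1 := by
    have h := (IntervalIntegrable.iff_comp_neg (f := g) (a := -1) (b := 0)).1 h1
    simpa using h.symm
  rw [← intervalIntegral.integral_add_adjacent_intervals h1 h2,
    intervalIntegral.integral_add h2 h3, intervalIntegral.integral_comp_neg, neg_zero, add_comm]

private lemma coeff_eq (f : ℝ → ℝ) (hf : MemLp f 2 (volume.restrict (Ioo 0 1))) (n : ℤ) :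
    fourierCoeffOn (a := -1) (b := 1) (by norm_num) (oddExt f) n =
      -Complex.I * ((∫ x in Ioo (0 : ℝ) 1, Real.sin (n * Real.pi * x) * f x : ℝ) : ℂ) := by
  rw [fourierCoeffOn_eq_integral]
  have hF := memLp_oddExt f hf
  have hint : IntervalIntegrable (oddExt f) volume (-1) 1 := by
    rw [intervalIntegrable_iff_integrableOn_Ioc_of_le (by norm_num)]
    exact hF.integrable (by norm_num)
  have hcont : Continuous (fun x : ℝ => fourier (-n) (x : AddCircle (1 - (-1) : ℝ))) :=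
    (fourier (-n)).continuous.comp (AddCircle.continuous_mk' _)
  have hint2 : IntervalIntegrable (fun x : ℝ =>
      fourier (-n) (x : AddCircle (1 - (-1) : ℝ)) • oddExt f x) volume (-1) 1 := by
    simp only [smul_eq_mul]
    exact hint.continuousOn_mul hcont.continuousOn
  rw [int_split _ hint2]
  have h5 : ∫ x in (0 : ℝ)..1, (fourier (-n) (x : AddCircle (1 - (-1) : ℝ)) • oddExt f x +
      fourier (-n) ((-x : ℝ) : AddCircle (1 - (-1) : ℝ)) • oddExt f (-x)) =
      ∫ x in (0 : ℝ)..1, (-2 * Complex.I) * ((Real.sin (n * Real.pi * x) * f x : ℝ) : ℂ) := by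
    refine intervalIntegral.integral_congr_ae (Filter.Eventually.of_forall fun x hx => ?_)
    rw [uIoc_of_le (by norm_num)] at hx
    rw [oddExt_pos f hx.1, oddExt_neg f hx.1, fourier_coe_apply, fourier_coe_apply]
    have e1 : (2 * Real.pi * Complex.I * ((-n : ℤ) : ℂ) * (x : ℂ) / ((1 - (-1) : ℝ) : ℂ)) =
        -((n * Real.pi * x : ℝ) : ℂ) * Complex.I := by
      push_cast; ring
    have e2 : (2 * Real.pi * Complex.I * ((-n : ℤ) : ℂ) * ((-x : ℝ) : ℂ) /
        ((1 - (-1) : ℝ) : ℂ)) = ((n * Real.pi * x : ℝ) : ℂ) * Complex.I := by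
      push_cast; ring
    rw [e1, e2, Complex.exp_mul_I, Complex.exp_mul_I, Complex.cos_neg, Complex.sin_neg]
    simp only [smul_eq_mul]
    push_cast
    ring
  rw [h5, intervalIntegral.integral_const_mul, intervalIntegral.integral_of_le (by norm_num),
    integral_Ioc_eq_integral_Ioo, integral_complex_ofReal]
  rw [Complex.real_smul]
  push_cast
  ring

private lemma norm_int (f : ℝ → ℝ) (hf : MemLp f 2 (volume.restrict (Ioo 0 1))) :
    ((1 : ℝ) - (-1))⁻¹ • ∫ x in (-1 : ℝ)..1, ‖oddExt f x‖ ^ 2 =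
      ∫ x in Ioo (0 : ℝ) 1, f x ^ 2 := by
  have hF := memLp_oddExt f hf
  have hint : IntervalIntegrable (fun x => ((‖oddExt f x‖ ^ 2 : ℝ) : ℂ)) volume (-1) 1 := by
    rw [intervalIntegrable_iff_integrableOn_Ioc_of_le (by norm_num)]
    exact (hF.integrable_norm_pow (by norm_num)).ofReal
  have h1 := int_split _ hint
  have h2 : ∫ x in (0 : ℝ)..1, (((‖oddExt f x‖ ^ 2 : ℝ) : ℂ) +
      ((‖oddExt f (-x)‖ ^ 2 : ℝ) : ℂ)) = ∫ x in (0 : ℝ)..1, ((2 * f x ^ 2 : ℝ) : ℂ) := by
    refine intervalIntegral.integral_congr_ae (Filter.Eventually.of_forall fun x hx => ?_)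
    rw [uIoc_of_le (by norm_num)] at hx
    rw [oddExt_pos f hx.1, oddExt_neg f hx.1, norm_neg, Complex.norm_real, Real.norm_eq_abs,
      sq_abs]
    push_cast; ring
  rw [h2, intervalIntegral.integral_ofReal, intervalIntegral.integral_ofReal] at h1
  have h3 := Complex.ofReal_injective h1
  rw [h3, intervalIntegral.integral_const_mul, intervalIntegral.integral_of_le (by norm_num),
    integral_Ioc_eq_integral_Ioo, smul_eq_mul]
  norm_num
  ring

theorem hasSum_sin (f : ℝ → ℝ) (hf : MemLp f 2 (volume.restrict (Ioo 0 1))) :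
    HasSum (fun m : ℕ => (∫ x in Ioo (0 : ℝ) 1, √2 * Real.sin (((m : ℝ) + 1) * Real.pi * x) *
      f x) ^ 2) (∫ x in Ioo (0 : ℝ) 1, f x ^ 2) := by
  have h1 := hasSum_sq_fourierCoeffOn (a := -1) (b := 1) (by norm_num) (memLp_oddExt f hf)
  rw [norm_int f hf] at h1
  set b : ℤ → ℝ := fun n => ∫ x in Ioo (0 : ℝ) 1, Real.sin (n * Real.pi * x) * f x with hb
  have h2 : HasSum (fun n : ℤ => b n ^ 2) (∫ x in Ioo (0 : ℝ) 1, f x ^ 2) := by
    have h1a : (fun n : ℤ => b n ^ 2) = fun i : ℤ =>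
        ‖fourierCoeffOn (a := -1) (b := 1) (by norm_num) (oddExt f) i‖ ^ 2 := by
      funext n
      rw [coeff_eq f hf n, norm_mul, norm_neg, Complex.norm_I, one_mul, Complex.norm_real,
        Real.norm_eq_abs, sq_abs]
    rw [h1a]
    exact h1
  have hneg : ∀ n : ℤ, b (-n) = -b n := by
    intro n
    simp only [hb]
    rw [← integral_neg]
    refine integral_congr_ae (Filter.Eventually.of_forall fun x => ?_)
    simp only
    push_cast
    rw [show (-(n : ℝ) * Real.pi * x) = -((n : ℝ) * Real.pi * x) by ring, Real.sin_neg]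
    ring
  have h0 : b 0 = 0 := by
    have := hneg 0
    simp only [neg_zero] at this
    linarith
  have h3 := h2.nat_add_neg
  have h4 := (hasSum_nat_add_iff' 1).2 h3
  have h5 : (∫ x in Ioo (0 : ℝ) 1, f x ^ 2) + b 0 ^ 2 -
      ∑ i ∈ Finset.range 1, (b (i : ℤ) ^ 2 + b (-(i : ℤ)) ^ 2) =
      ∫ x in Ioo (0 : ℝ) 1, f x ^ 2 := by
    simp [h0]
  rw [h5] at h4
  have h8 : (fun m : ℕ => (∫ x in Ioo (0 : ℝ) 1, √2 * Real.sin (((m : ℝ) + 1) * Real.pi * x) *
      f x) ^ 2) = fun n : ℕ => b ((n + 1 : ℕ) : ℤ) ^ 2 + b (-((n + 1 : ℕ) : ℤ)) ^ 2 := by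
    funext m
    have h6 : ∫ x in Ioo (0 : ℝ) 1, √2 * Real.sin (((m : ℝ) + 1) * Real.pi * x) * f x =
        √2 * b ((m + 1 : ℕ) : ℤ) := by
      simp only [hb]
      rw [← integral_const_mul]
      refine integral_congr_ae (Filter.Eventually.of_forall fun x => ?_)
      simp only
      push_cast
      ring
    rw [h6, mul_pow, Real.sq_sqrt (by norm_num), hneg]
    ring
  rw [h8]
  exact h4

end Pool.Agent.MP4eed4eP
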