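import Pool.Agent.Lib.MP_4eed4e_an_PB.BDefs
import Pool.Agent.Lib.MP_4eed4e_an_PB.BSa

set_option autoImplicit false

/-!
Project P, block B, module BSb: Parseval's identity for the sine system on the square.

PROOF of `hasSum_ss`. `f` in `L²(Sq)`, `volume.restrict Sq` is the product of `volume.restrict (Ioo
0 1)` with itself (`Measure.volume_eq_prod`, `Measure.prod_restrict`). For almost every `y` the
function `f (·, y)` is in `L²(0, 1)`; put `g_m y = ∫_0^1 √2 sin ((m+1) π x) f (x, y) dx`. By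
`hasSum_sin` `∑_m g_m(y)² = ∫_0^1 f (x, y)² dx` for almost every `y`, so by Tonelli
(`lintegral_tsum` or `hasSum_integral_of_summable_integral_norm`) `∑_m ∫ g_m² = ∫∫ f²`. `g_m` is in
`L²(0, 1)` (`g_m² ≤ ∫ f (x, y)² dx`), so `∫ g_m² = ∑_n (∫ √2 sin ((n+1) π y) g_m y dy)² = ∑_n (∫_Sq
ss (m, n) f)²` (Fubini). The double sum is `∑_{(m, n)}` because all terms are nonnegative (e.g.
work in `ENNReal` or use `HasSum.prod_fiberwise`-type lemmas / `summable_prod_of_nonneg`).
`summable_lams`: `(lams p)⁻¹ ^ 2 ≤ C / ((p.1 + 1)² (p.2 + 1)²)` because `(a² + b²)² ≥ 4 a² b²`, and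
`Summable.mul_of_nonneg`.
-/

namespace Pool.Agent.MP4eed4eP

open MeasureTheory Set

theorem summable_lams : Summable (fun p => (lams p)⁻¹ ^ 2) := by
  have h1 : Summable (fun n : ℕ => (((n : ℝ) + 1) ^ 2)⁻¹) := by
    have h2 := (summable_nat_add_iff (f := fun n : ℕ => ((n : ℝ) ^ 2)⁻¹) 1).2
      (Real.summable_nat_pow_inv.2 (by norm_num))
    refine h2.congr fun n => ?_
    push_cast
    rfl
  have h3 := h1.mul_of_nonneg h1 (fun n => by positivity) (fun n => by positivity)
  refine Summable.of_nonneg_of_le (fun p => by positivity) (fun p => ?_) h3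
  set a : ℝ := (p.1 : ℝ) + 1 with ha
  set b : ℝ := (p.2 : ℝ) + 1 with hb
  have ha0 : 0 < a := by positivity
  have hb0 : 0 < b := by positivity
  have hl : lams p = Real.pi ^ 2 * (a ^ 2 + b ^ 2) := rfl
  change (lams p)⁻¹ ^ 2 ≤ (a ^ 2)⁻¹ * (b ^ 2)⁻¹
  rw [hl, inv_pow, ← mul_inv]
  refine inv_anti₀ (by positivity) ?_
  have hpi : 1 ≤ Real.pi ^ 2 := by nlinarith [Real.pi_gt_three]
  have h4 : a ^ 2 + b ^ 2 ≤ Real.pi ^ 2 * (a ^ 2 + b ^ 2) := by
    nlinarith [sq_nonneg a, sq_nonneg b]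
  have h5 : (a ^ 2 + b ^ 2) ^ 2 ≤ (Real.pi ^ 2 * (a ^ 2 + b ^ 2)) ^ 2 :=
    pow_le_pow_left₀ (by positivity) h4 2
  nlinarith [sq_nonneg (a ^ 2 - b ^ 2), sq_nonneg (a ^ 2), sq_nonneg (b ^ 2), mul_pos ha0 hb0,
    mul_nonneg (sq_nonneg a) (sq_nonneg b)]

private noncomputable def bsbE (m : ℕ) (t : ℝ) : ℝ := √2 * Real.sin (((m : ℝ) + 1) * Real.pi * t)

private theorem bsb_ss (p : ℕ × ℕ) (x : P) : ss p x = bsbE p.1 x.1 * bsbE p.2 x.2 := by
  have h : √2 * √2 = (2 : ℝ) := Real.mul_self_sqrt (by norm_num)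
  unfold ss bsbE
  calc _ = (√2 * √2) * Real.sin (((p.1 : ℝ) + 1) * Real.pi * x.1) *
        Real.sin (((p.2 : ℝ) + 1) * Real.pi * x.2) := by rw [h]
    _ = _ := by ring

private theorem bsbE_cont (m : ℕ) : Continuous (bsbE m) := by
  unfold bsbE
  fun_prop

private theorem bsbE_le (m : ℕ) (t : ℝ) : |bsbE m t| ≤ √2 := by
  unfold bsbE
  rw [abs_mul, abs_of_nonneg (Real.sqrt_nonneg 2)]
  have h1 := Real.abs_sin_le_one (((m : ℝ) + 1) * Real.pi * t)
  nlinarith [Real.sqrt_nonneg 2]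

theorem hasSum_ss (f : P → ℝ) (hf : MemLp f 2 (volume.restrict Sq)) :
    HasSum (fun p => (∫ x in Sq, ss p x * f x) ^ 2) (∫ x in Sq, f x ^ 2) := by
  set μ : Measure ℝ := volume.restrict (Ioo 0 1) with hμ
  have hfin : IsFiniteMeasure μ := by
    rw [hμ]
    infer_instance
  have hprod : (volume.restrict Sq : Measure P) = μ.prod μ := by
    rw [hμ, Measure.prod_restrict, ← Measure.volume_eq_prod]
    rfl
  rw [hprod] at hf ⊢
  have hfm : AEStronglyMeasurable f (μ.prod μ) := hf.1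
  have hf2 : Integrable (fun z => f z ^ 2) (μ.prod μ) := hf.integrable_sq
  have hf1 : Integrable f (μ.prod μ) := hf.integrable one_le_two
  -- the coefficient functions
  set g : ℕ → ℝ → ℝ := fun n x => ∫ y, bsbE n y * f (x, y) ∂μ with hg
  have hgm : ∀ n, AEStronglyMeasurable (g n) μ := by
    intro n
    have h1 : AEStronglyMeasurable (fun z : P => bsbE n z.2 * f z) (μ.prod μ) :=
      ((bsbE_cont n).comp continuous_snd).aestronglyMeasurable.mul hfm
    exact h1.integral_prod_right'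
  have hae1 : ∀ᵐ x ∂μ, MemLp (fun y => f (x, y)) 2 μ := by
    have h1 := hf2.prod_right_ae
    have h2 := hfm.prodMk_left
    filter_upwards [h1, h2] with x h3 h4
    exact (memLp_two_iff_integrable_sq h4).2 h3
  have hsum : ∀ᵐ x ∂μ, HasSum (fun n => g n x ^ 2) (∫ y, f (x, y) ^ 2 ∂μ) := by
    filter_upwards [hae1] with x hx
    exact hasSum_sin (fun y => f (x, y)) hx
  have hint : Integrable (fun x => ∫ y, f (x, y) ^ 2 ∂μ) μ := hf2.integral_prod_left
  have hgL : ∀ n, MemLp (g n) 2 μ := by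
    intro n
    refine (memLp_two_iff_integrable_sq (hgm n)).2 ?_
    refine hint.mono' ((hgm n).pow 2) ?_
    filter_upwards [hsum] with x hx
    rw [Real.norm_eq_abs, abs_of_nonneg (sq_nonneg _)]
    exact le_hasSum hx n fun j _ => sq_nonneg _
  have hout : HasSum (fun n => ∫ x, g n x ^ 2 ∂μ) (∫ z, f z ^ 2 ∂(μ.prod μ)) := by
    have h1 : HasSum (fun n => ∫ x, g n x ^ 2 ∂μ) (∫ x, ∫ y, f (x, y) ^ 2 ∂μ ∂μ) := by
      refine hasSum_integral_of_dominated_convergence (fun n x => g n x ^ 2)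
        (fun n => (hgm n).pow 2) (fun n => ?_) ?_ ?_ hsum
      · refine Filter.Eventually.of_forall fun x => ?_
        rw [Real.norm_eq_abs, abs_of_nonneg (sq_nonneg _)]
      · filter_upwards [hsum] with x hx
        exact hx.summable
      · refine hint.congr ?_
        filter_upwards [hsum] with x hx
        exact hx.tsum_eq.symm
    rw [integral_prod _ hf2]
    exact h1
  have hin : ∀ n, HasSum (fun m => (∫ z, ss (m, n) z * f z ∂(μ.prod μ)) ^ 2)
      (∫ x, g n x ^ 2 ∂μ) := by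
    intro n
    have h1 := hasSum_sin (g n) (hgL n)
    refine h1.congr_fun fun m => ?_
    have h2 : Integrable (fun z : P => ss (m, n) z * f z) (μ.prod μ) := by
      have h3 : AEStronglyMeasurable (fun z : P => ss (m, n) z * f z) (μ.prod μ) := by
        refine AEStronglyMeasurable.mul (Continuous.aestronglyMeasurable ?_) hfm
        unfold ss
        fun_prop
      refine (hf1.norm.const_mul 2).mono' h3 (Filter.Eventually.of_forall fun z => ?_)
      rw [Real.norm_eq_abs, abs_mul, bsb_ss, abs_mul]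
      have h4 := bsbE_le m z.1
      have h5 := bsbE_le n z.2
      have h6 : |bsbE m z.1| * |bsbE n z.2| ≤ 2 := by
        calc |bsbE m z.1| * |bsbE n z.2| ≤ √2 * √2 :=
              mul_le_mul h4 h5 (abs_nonneg _) (Real.sqrt_nonneg _)
          _ = 2 := Real.mul_self_sqrt (by norm_num)
      exact mul_le_mul_of_nonneg_right h6 (abs_nonneg _)
    rw [integral_prod _ h2]
    congr 1
    refine integral_congr_ae (Filter.Eventually.of_forall fun x => ?_)
    change ∫ y, ss (m, n) (x, y) * f (x, y) ∂μ = bsbE m x * ∫ y, bsbE n y * f (x, y) ∂μ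
    rw [← integral_const_mul]
    refine integral_congr_ae (Filter.Eventually.of_forall fun y => ?_)
    change ss (m, n) (x, y) * f (x, y) = bsbE m x * (bsbE n y * f (x, y))
    rw [bsb_ss]
    ring
  have hswap : HasSum (fun p : ℕ × ℕ => (∫ z, ss (p.2, p.1) z * f z ∂(μ.prod μ)) ^ 2)
      (∫ z, f z ^ 2 ∂(μ.prod μ)) := by
    have h1 : Summable (fun p : ℕ × ℕ => (∫ z, ss (p.2, p.1) z * f z ∂(μ.prod μ)) ^ 2) := by
      rw [summable_prod_of_nonneg (fun p => sq_nonneg _)]
      refine ⟨fun n => (hin n).summable, ?_⟩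
      refine hout.summable.congr fun n => ?_
      exact (hin n).tsum_eq.symm
    have h2 := h1.hasSum.prod_fiberwise hin
    rw [← h2.unique hout]
    exact h1.hasSum
  have h3 := (Equiv.prodComm ℕ ℕ).hasSum_iff.2 hswap
  exact h3

end Pool.Agent.MP4eed4eP
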