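import Pool.Agent.Lib.MP_4eed4e_an_PB.BTz
import Pool.Agent.Lib.MP_4eed4e_an_PB.BSb

set_option autoImplicit false

/-!
Project P, block B, module BTd: completeness of the eigenfunctions of `T0`.

PROOF. Let `f` be in `L²(T0)` with `∫_{T0} uf κ f = 0` for all `κ`. Define `F` on `R0` by
`F (six i v) = ε_i f v` for `v ∈ T0`, `ε = (1, -1, 1, 1, -1, 1)`, and `F = 0` at the other points
(e.g. `F = ∑ i, ε_i (six i '' T0).indicator (f ∘ (six i)⁻¹)`; the maps are injective and the images
disjoint, `six_disj`; the inverse of `rf` is `rf`, of `pt` is `pt`, of `rt` the rotation by -60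
degrees). `F` is in `L²(R0)`. For `M, N ≥ 1` by `integral_R0` (`ts M N * F` is integrable)
`∫_{R0} ts M N F = ∫_{T0} f (ts - ts ∘ rf + ts ∘ rt) + ∫_{T0} f (ts ∘ pt - ts ∘ pt ∘ rf + ts ∘ pt ∘
rt)` `= (1 + (-1)^(M+N)) ∫_{T0} f (ts - ts ∘ rf + ts ∘ rt)` (`ts_pt`). If `M + N` is odd this is
`0`; if it is even it is `2 ∫_{T0} f uz M N` (`ts_sum`), which is `0` by `exists_KS`. So all sine
coefficients of `F` vanish. The function `F' (x, y) = F (√3 x, 3 y)` on `Sq` is in `L²(Sq)`, with
`∫_Sq ss (M-1, N-1) F' = (2/(3√3)) ∫_{R0} ts M N F = 0`, so by `hasSum_ss` `∫_Sq F'² = 0`, `F' = 0`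
almost everywhere, `F = 0` almost everywhere on `R0`, in particular `f = F = 0` almost everywhere
on `T0` (`six 0 = id`).
-/

namespace Pool.Agent.MP4eed4eP

open MeasureTheory Set

open scoped ENNReal

/-! ### The scaling of the square to the rectangle -/

private noncomputable def sc (v : P) : P := (√3 * v.1, 3 * v.2)

private theorem sqrt3_ne : (√3 : ℝ) ≠ 0 := by positivity

private theorem sc_emb : MeasurableEmbedding sc := by
  have h : sc = Prod.map (fun x : ℝ => √3 * x) fun y : ℝ => 3 * y := rfl
  rw [h]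
  exact ((Homeomorph.mulLeft₀ (√3 : ℝ) sqrt3_ne).prodCongr
    (Homeomorph.mulLeft₀ (3 : ℝ) (by norm_num))).measurableEmbedding

private theorem sc_map : ∃ c : ℝ≥0∞, c ≠ 0 ∧ c ≠ ∞ ∧
    Measure.map sc (volume : Measure P) = c • volume := by
  have h : sc = Prod.map (fun x : ℝ => √3 * x) fun y : ℝ => 3 * y := rfl
  have h3 : (3 : ℝ) ≠ 0 := by norm_num
  refine ⟨ENNReal.ofReal |(√3 : ℝ)⁻¹| * ENNReal.ofReal |(3 : ℝ)⁻¹|, ?_, ?_, ?_⟩
  · refine mul_ne_zero ?_ ?_
    · rw [Ne, ENNReal.ofReal_eq_zero, not_le]
      positivity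
    · rw [Ne, ENNReal.ofReal_eq_zero, not_le]
      positivity
  · exact ENNReal.mul_ne_top ENNReal.ofReal_ne_top ENNReal.ofReal_ne_top
  · rw [h, Measure.volume_eq_prod, ← Measure.map_prod_map _ _ (measurable_const_mul _)
      (measurable_const_mul _), Real.map_volume_mul_left sqrt3_ne, Real.map_volume_mul_left h3,
      Measure.prod_smul_left, Measure.prod_smul_right, smul_smul]

private theorem sc_pre : sc ⁻¹' R0 = Sq := by
  have h3 : (0 : ℝ) < √3 := by positivity
  ext v
  simp only [mem_preimage, R0, Sq, sc, mem_prod, mem_Ioo]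
  constructor
  · rintro ⟨⟨h1, h2⟩, h4, h5⟩
    exact ⟨⟨by nlinarith, by nlinarith⟩, by linarith, by linarith⟩
  · rintro ⟨⟨h1, h2⟩, h4, h5⟩
    exact ⟨⟨by positivity, by nlinarith⟩, by linarith, by linarith⟩

private theorem ss_sc (p : ℕ × ℕ) (x : P) :
    ss p x = 2 * ts ((p.1 : ℤ) + 1) ((p.2 : ℤ) + 1) (sc x) := by
  have h3 : (√3 : ℝ) ≠ 0 := sqrt3_ne
  have e1 : Real.pi * (√3 * x.1) / √3 = Real.pi * x.1 := by
    field_simp
  have e2 : Real.pi * (3 * x.2) / 3 = Real.pi * x.2 := by
    field_simp
  rw [ss, ts, sc]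
  dsimp only
  rw [e1, e2]
  push_cast
  rw [mul_assoc ((p.1 : ℝ) + 1), mul_assoc ((p.2 : ℝ) + 1), mul_assoc]

/-- A function on the rectangle with vanishing sine coefficients is zero. -/
private theorem ae_zero (F : P → ℝ) (hF : MemLp F 2 (volume.restrict R0))
    (h : ∀ m n : ℕ, ∫ v in R0, ts ((m : ℤ) + 1) ((n : ℤ) + 1) v * F v = 0) :
    F =ᵐ[volume.restrict R0] 0 := by
  obtain ⟨c, hc0, hct, hc⟩ := sc_map
  have hres : Measure.map sc (volume.restrict Sq) = c • volume.restrict R0 := by
    rw [← sc_pre, ← sc_emb.restrict_map, hc, Measure.restrict_smul]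
  have hL : MemLp (F ∘ sc) 2 (volume.restrict Sq) := by
    rw [← sc_emb.memLp_map_measure_iff, hres]
    exact hF.smul_measure hct
  have hS := hasSum_ss (F ∘ sc) hL
  have hz : ∀ p : ℕ × ℕ, ∫ x in Sq, ss p x * (F ∘ sc) x = 0 := by
    intro p
    have e1 : ∫ x in Sq, ss p x * (F ∘ sc) x =
        ∫ x in Sq, (fun v => 2 * (ts ((p.1 : ℤ) + 1) ((p.2 : ℤ) + 1) v * F v)) (sc x) := by
      refine integral_congr_ae (Filter.Eventually.of_forall fun x => ?_)
      dsimp only
      rw [ss_sc, Function.comp_apply]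
      ring
    have e2 := sc_emb.integral_map (μ := volume.restrict Sq)
      fun v => 2 * (ts ((p.1 : ℤ) + 1) ((p.2 : ℤ) + 1) v * F v)
    rw [e1]
    refine e2.symm.trans ?_
    rw [hres, integral_smul_measure, integral_const_mul, h, mul_zero, smul_zero]
  simp only [hz] at hS
  have h0 : ∫ x in Sq, (F ∘ sc) x ^ 2 = 0 := by
    refine hS.unique ?_
    have : (fun _ : ℕ × ℕ => (0 : ℝ) ^ 2) = fun _ => 0 := by
      funext _
      norm_num
    rw [this]
    exact hasSum_zero
  have h1 := (integral_eq_zero_iff_of_nonneg (fun x => sq_nonneg ((F ∘ sc) x))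
    hL.integrable_sq).1 h0
  have h2 : ∀ᵐ x ∂volume.restrict Sq, F (sc x) = 0 := by
    filter_upwards [h1] with x hx
    exact pow_eq_zero_iff (two_ne_zero) |>.1 hx
  have h3 : ∀ᵐ x ∂(Measure.map sc (volume.restrict Sq)), F x = 0 :=
    sc_emb.ae_map_iff.2 h2
  rw [hres] at h3
  exact (Measure.ae_ennreal_smul_measure_iff hc0).1 h3

/-! ### The extension to the rectangle -/

private noncomputable def eps : Fin 6 → ℝ := ![1, -1, 1, 1, -1, 1]

private noncomputable def Gi (f : P → ℝ) (i : Fin 6) : P → ℝ :=
  Function.extend (six i) (T0.indicator f) 0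

private theorem Gi_comp (f : P → ℝ) (i : Fin 6) : Gi f i ∘ six i = T0.indicator f := by
  funext v
  exact (six_props i).2.1.injective.extend_apply _ _ v

private theorem Gi_mem {f : P → ℝ} (hf : MemLp f 2 (volume.restrict T0)) (i : Fin 6) :
    MemLp (Gi f i) 2 volume := by
  have h1 : MemLp (T0.indicator f) 2 volume :=
    (memLp_indicator_iff_restrict isOpen_T0.measurableSet).2 hf
  have h2 := (six_props i).1.map_eq
  rw [← h2, (six_props i).2.1.memLp_map_measure_iff, Gi_comp]
  exact h1

private theorem Gi_apply (f : P → ℝ) (i j : Fin 6) {w : P} (hw : w ∈ T0) :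
    Gi f i (six j w) = if i = j then f w else 0 := by
  by_cases h : i = j
  · subst h
    rw [if_pos rfl]
    have h1 := congrFun (Gi_comp f i) w
    rw [Function.comp_apply, indicator_of_mem hw] at h1
    exact h1
  · rw [if_neg h, Gi]
    by_cases hr : ∃ u, six i u = six j w
    · obtain ⟨u, hu⟩ := hr
      rw [← hu, (six_props i).2.1.injective.extend_apply]
      refine indicator_of_notMem (fun hT => ?_) _
      exact (disjoint_left.1 (six_disj i j h)) (mem_image_of_mem _ hT)
        (hu ▸ mem_image_of_mem _ hw)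
    · rw [Function.extend_apply' _ _ _ hr]
      rfl

private noncomputable def Fe (f : P → ℝ) (v : P) : ℝ := ∑ i, eps i * Gi f i v

private theorem Fe_mem {f : P → ℝ} (hf : MemLp f 2 (volume.restrict T0)) :
    MemLp (Fe f) 2 volume := by
  have h : Fe f = ∑ i, fun v => eps i * Gi f i v := by
    funext v
    rw [Fe, Finset.sum_apply]
  rw [h]
  exact memLp_finsetSum' _ fun i _ => (Gi_mem hf i).const_mul (eps i)

private theorem Fe_apply (f : P → ℝ) (j : Fin 6) {w : P} (hw : w ∈ T0) :
    Fe f (six j w) = eps j * f w := by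
  rw [Fe, Finset.sum_eq_single j]
  · rw [Gi_apply f j j hw, if_pos rfl]
  · intro i _ hi
    rw [Gi_apply f i j hw, if_neg hi, mul_zero]
  · intro h
    exact absurd (Finset.mem_univ j) h

private theorem abs_ts (C B : ℤ) (v : P) : |ts C B v| ≤ 1 := by
  rw [ts, abs_mul]
  exact mul_le_one₀ (Real.abs_sin_le_one _) (abs_nonneg _) (Real.abs_sin_le_one _)

private theorem cont_ts (C B : ℤ) : Continuous (ts C B) := by
  unfold ts
  fun_prop

private theorem finite_R0 : IsFiniteMeasure ((volume : Measure P).restrict R0) := by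
  refine ⟨?_⟩
  rw [Measure.restrict_apply_univ]
  exact ((Metric.isBounded_Ioo (0 : ℝ) √3).prod (Metric.isBounded_Ioo (0 : ℝ) 3)).measure_lt_top

private theorem int_ts {G : P → ℝ} {S : Set P} (hG : IntegrableOn G S) (C B : ℤ) (T : P → P)
    (hT : Measurable T) : IntegrableOn (fun v => ts C B (T v) * G v) S := by
  refine Integrable.bdd_mul (c := 1) hG
    ((cont_ts C B).measurable.comp hT).aestronglyMeasurable ?_
  exact Filter.Eventually.of_forall fun v => by
    rw [Real.norm_eq_abs]
    exact abs_ts C B _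

theorem complete_uf (f : P → ℝ) (hf : MemLp f 2 (volume.restrict T0))
    (h : ∀ κ, ∫ x in T0, uf κ x * f x = 0) : f =ᵐ[volume.restrict T0] 0 := by
  have hsub : T0 ⊆ R0 := fun v hv => (six_props 0).2.2 hv
  have hfin := finite_R0
  have hF := Fe_mem hf
  have hFR : MemLp (Fe f) 2 (volume.restrict R0) := hF.restrict R0
  have hFI : IntegrableOn (Fe f) R0 := hFR.integrable (by norm_num)
  have hfI : IntegrableOn f T0 := by
    have : IsFiniteMeasure ((volume : Measure P).restrict T0) :=
      ⟨lt_of_le_of_lt (by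
        rw [Measure.restrict_apply_univ, Measure.restrict_apply_univ]
        exact measure_mono hsub) hfin.measure_univ_lt_top⟩
    exact hf.integrable (by norm_num)
  have hmeas : ∀ i, Measurable (six i) := fun i => (six_props i).1.measurable
  have hcoef : ∀ m n : ℕ, ∫ v in R0, ts ((m : ℤ) + 1) ((n : ℤ) + 1) v * Fe f v = 0 := by
    intro m n
    set M : ℤ := (m : ℤ) + 1 with hM
    set N : ℤ := (n : ℤ) + 1 with hN
    rw [integral_R0 (fun v => ts M N v * Fe f v) (int_ts hFI M N id measurable_id)]
    have e1 : ∀ i : Fin 6, ∫ v in T0, ts M N (six i v) * Fe f (six i v) =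
        eps i * ∫ v in T0, ts M N (six i v) * f v := by
      intro i
      rw [← integral_const_mul]
      refine setIntegral_congr_fun isOpen_T0.measurableSet fun v hv => ?_
      change ts M N (six i v) * Fe f (six i v) = eps i * (ts M N (six i v) * f v)
      rw [Fe_apply f i hv]
      ring
    simp only [e1]
    rw [Fin.sum_univ_six]
    have t0 := int_ts hfI M N (six 0) (hmeas 0)
    have t1 := int_ts hfI M N (six 1) (hmeas 1)
    have t2 := int_ts hfI M N (six 2) (hmeas 2)
    have e3 : ∫ v in T0, ts M N (six 3 v) * f v =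
        (-1) ^ (M + N).natAbs * ∫ v in T0, ts M N (six 0 v) * f v := by
      rw [← integral_const_mul]
      refine integral_congr_ae (Filter.Eventually.of_forall fun v => ?_)
      change ts M N (pt v) * f v = (-1) ^ (M + N).natAbs * (ts M N v * f v)
      rw [ts_pt]
      ring
    have e4 : ∫ v in T0, ts M N (six 4 v) * f v =
        (-1) ^ (M + N).natAbs * ∫ v in T0, ts M N (six 1 v) * f v := by
      rw [← integral_const_mul]
      refine integral_congr_ae (Filter.Eventually.of_forall fun v => ?_)
      change ts M N (pt (rf v)) * f v = (-1) ^ (M + N).natAbs * (ts M N (rf v) * f v)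
      rw [ts_pt]
      ring
    have e5 : ∫ v in T0, ts M N (six 5 v) * f v =
        (-1) ^ (M + N).natAbs * ∫ v in T0, ts M N (six 2 v) * f v := by
      rw [← integral_const_mul]
      refine integral_congr_ae (Filter.Eventually.of_forall fun v => ?_)
      change ts M N (pt (rt v)) * f v = (-1) ^ (M + N).natAbs * (ts M N (rt v) * f v)
      rw [ts_pt]
      ring
    have hsum : eps 0 * (∫ v in T0, ts M N (six 0 v) * f v) +
        eps 1 * (∫ v in T0, ts M N (six 1 v) * f v) +
        eps 2 * (∫ v in T0, ts M N (six 2 v) * f v) =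
        ∫ v in T0, (ts M N v - ts M N (rf v) + ts M N (rt v)) * f v := by
      have e6 : eps 0 = 1 := rfl
      have e7 : eps 1 = -1 := rfl
      have e8 : eps 2 = 1 := rfl
      rw [e6, e7, e8, one_mul, one_mul, neg_one_mul, ← sub_eq_add_neg,
        ← integral_sub t0 t1]
      refine (integral_add (t0.sub t1) t2).symm.trans ?_
      refine integral_congr_ae (Filter.Eventually.of_forall fun v => ?_)
      change ts M N v * f v - ts M N (rf v) * f v + ts M N (rt v) * f v =
        (ts M N v - ts M N (rf v) + ts M N (rt v)) * f v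
      ring
    have e9 : eps 3 = eps 0 := rfl
    have e10 : eps 4 = eps 1 := rfl
    have e11 : eps 5 = eps 2 := rfl
    rw [e3, e4, e5, e9, e10, e11]
    have key : (1 + (-1 : ℝ) ^ (M + N).natAbs) *
        ∫ v in T0, (ts M N v - ts M N (rf v) + ts M N (rt v)) * f v = 0 := by
      have hab : (M + N).natAbs = m + n + 2 := by
        rw [hM, hN]
        omega
      rw [hab]
      rcases Nat.even_or_odd (m + n) with hpar | hpar
      · have hpar2 : M % 2 = N % 2 := by
          rw [hM, hN]
          obtain ⟨r, hr⟩ := hpar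
          omega
        have hz : ∫ v in T0, (ts M N v - ts M N (rf v) + ts M N (rt v)) * f v = 0 := by
          have e12 : ∀ v, ts M N v - ts M N (rf v) + ts M N (rt v) = uz M N v :=
            fun v => ts_sum hpar2 v
          simp only [e12]
          have hks := exists_KS (M := m + 1) (N := n + 1) (by omega) (by omega) (by
            obtain ⟨r, hr⟩ := hpar
            omega)
          have hMc : (((m + 1 : ℕ) : ℤ)) = M := by
            rw [hM]
            push_cast
            ring
          have hNc : (((n + 1 : ℕ) : ℤ)) = N := by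
            rw [hN]
            push_cast
            ring
          rw [hMc, hNc] at hks
          rcases hks with h0 | ⟨κ, h0 | h0⟩
          · simp only [h0, zero_mul, integral_zero]
          · simp only [h0]
            exact h κ
          · simp only [h0, neg_mul]
            rw [integral_neg, h κ, neg_zero]
        rw [hz, mul_zero]
      · have hodd : (-1 : ℝ) ^ (m + n + 2) = -1 := by
          rw [pow_add, hpar.neg_one_pow]
          norm_num
        rw [hodd]
        norm_num
    rw [← hsum] at key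
    linear_combination key
  have hz := ae_zero (Fe f) hFR hcoef
  have hz2 : ∀ᵐ v ∂volume.restrict T0, Fe f v = 0 :=
    ae_restrict_of_ae_restrict_of_subset hsub hz
  filter_upwards [hz2, ae_restrict_mem isOpen_T0.measurableSet] with v hv hvT
  have h1 := Fe_apply f 0 hvT
  have h2 : six 0 v = v := rfl
  have h3 : eps 0 = 1 := rfl
  rw [h2, h3, one_mul, hv] at h1
  exact h1.symm

end Pool.Agent.MP4eed4eP
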