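import Pool.Agent.Lib.MP_4eed4e_an_PB.BTr

set_option autoImplicit false

/-!
Project P, block B, module BTz: the trigonometric functions `uz M N` for integers `M = N mod 2`.

`ts C B v = sin (C π x / √3) sin (B π y / 3)`. For integers `M = N mod 2` let
`C = (M, (M-N)/2, -(M+N)/2)`, `B = (N, (3M+N)/2, (3M-N)/2)`, `uz M N = ∑_i ts C_i B_i`. With
`τ = π x / √3`, `σ = π y / 3`: `rf` is `(τ, σ) ↦ ((τ + 3σ)/2, (τ - σ)/2)`, `rt` is
`(τ, σ) ↦ ((τ - 3σ)/2, (τ + σ)/2)`, `pt` is `(τ, σ) ↦ (π - τ, π - σ)`. Write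
`a_i^± = cos (C_i τ ± B_i σ)`, so `ts C_i B_i = (a_i^- - a_i^+)/2`. Using
`(C_0 - B_0)/2 = C_1`, `(3C_0 + B_0)/2 = B_1`, `(C_0 + B_0)/2 = -C_2`, `(3C_0 - B_0)/2 = B_2`,
`(C_1 - B_1)/2 = C_2`, `(3C_1 + B_1)/2 = B_2`, `(C_1 + B_1)/2 = C_0`, `(3C_1 - B_1)/2 = -B_0`,
`(C_2 - B_2)/2 = -C_0`, `(3C_2 + B_2)/2 = -B_0`, `(C_2 + B_2)/2 = C_1`, `(3C_2 - B_2)/2 = -B_1` one
gets `2 ts C_0 B_0 ∘ rf = a_1^+ - a_2^-`, `2 ts C_1 B_1 ∘ rf = a_2^+ - a_0^-`,
`2 ts C_2 B_2 ∘ rf = a_0^+ - a_1^-`; the sum is `-2 uz`: `uz_rf`. `2 ts C_0 B_0 ∘ rt = a_1^- -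
a_2^+`, so `ts_sum`: `ts M N - ts M N ∘ rf + ts M N ∘ rt = uz M N`. `uz_rt`: the same computation
(or `rt = rf ∘ (x, -y)` and `uz` is odd in `y`). `uz_pt`: `sin (C (π - τ)) sin (B (π - σ)) =
(-1)^(C+B) sin (C τ) sin (B σ)`, and `C_i + B_i` is even for every `i`. `ts_pt` similarly.
`uz_zero1`: `N = 3 M`: `C = (M, -M, -2M)`, `B = (3M, 3M, 0)`. `uz_zero2`: `N = M`:
`C = (M, 0, -M)`, `B = (M, 2M, M)`. `uz_cyc`: `uz M N = uz C_1 B_1` (the triple of `(C_1, B_1)` is
`(C_1, C_2, -C_0)`, `(B_1, B_2, -B_0)`). `uz_neg`: `uz (-M) N = - uz M N`.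
`exists_KS`: for `M, N ≥ 1`, `M = N mod 2`: if `N > 3 M` take `κ = (M, N)`; if `N = 3 M` or `N = M`
then `uz = 0`; if `N < 3 M`, `N ≠ M`: `κ = (|M - N|/2, (3M + N)/2)` is in `KS`
(`3 |M - N| < 3 M + N` and the parities agree, the sum is even) and `uz M N = ± uf κ` by `uz_cyc`,
`uz_neg`.
-/

namespace Pool.Agent.MP4eed4eP

open MeasureTheory Set

/-- Product of two sines. -/
noncomputable def ts (C B : ℤ) (v : P) : ℝ :=
  Real.sin (C * (Real.pi * v.1 / √3)) * Real.sin (B * (Real.pi * v.2 / 3))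

/-- The three-term sums for integers. -/
noncomputable def uz (M N : ℤ) (v : P) : ℝ :=
  ts M N v + ts ((M - N) / 2) ((3 * M + N) / 2) v + ts (-((M + N) / 2)) ((3 * M - N) / 2) v

private theorem bz_ss {a b c d : ℝ} (h1 : a - b = c ∨ a - b = -c) (h2 : a + b = d ∨ a + b = -d) :
    Real.sin a * Real.sin b = (Real.cos c - Real.cos d) / 2 := by
  have e1 : Real.cos c = Real.cos (a - b) := by
    rcases h1 with h | h
    · rw [h]
    · rw [h, Real.cos_neg]
  have e2 : Real.cos d = Real.cos (a + b) := by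
    rcases h2 with h | h
    · rw [h]
    · rw [h, Real.cos_neg]
  rw [e1, e2, Real.cos_sub, Real.cos_add]
  ring

private theorem bz_par {M N : ℤ} (h : M % 2 = N % 2) : ∃ k, N = M + 2 * k :=
  ⟨(N - M) / 2, by omega⟩

private theorem bz_uz (M k : ℤ) (v : P) : uz M (M + 2 * k) v =
    ts M (M + 2 * k) v + ts (-k) (2 * M + k) v + ts (-(M + k)) (M - k) v := by
  have h1 : (M - (M + 2 * k)) / 2 = -k := by omega
  have h2 : (3 * M + (M + 2 * k)) / 2 = 2 * M + k := by omega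
  have h3 : (M + (M + 2 * k)) / 2 = M + k := by omega
  have h4 : (3 * M - (M + 2 * k)) / 2 = M - k := by omega
  rw [uz, h1, h2, h3, h4]

/-- The angles. -/
private noncomputable def tau (v : P) : ℝ := Real.pi * v.1 / √3

private noncomputable def sig (v : P) : ℝ := Real.pi * v.2 / 3

private theorem bz_s3 : √3 * √3 = (3 : ℝ) := Real.mul_self_sqrt (by norm_num)

private theorem bz_s0 : (√3 : ℝ) ≠ 0 := by positivity

private theorem tau_rf (v : P) : tau (rf v) = (tau v + 3 * sig v) / 2 := by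
  have h := bz_s0
  simp only [tau, sig, rf]
  field_simp

private theorem sig_rf (v : P) : sig (rf v) = (tau v - sig v) / 2 := by
  have h := bz_s0
  have h3 := bz_s3
  simp only [tau, sig, rf]
  field_simp
  linear_combination v.1 * h3

private theorem tau_rt (v : P) : tau (rt v) = (tau v - 3 * sig v) / 2 := by
  have h := bz_s0
  simp only [tau, sig, rt]
  field_simp

private theorem sig_rt (v : P) : sig (rt v) = (tau v + sig v) / 2 := by
  have h := bz_s0
  have h3 := bz_s3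
  simp only [tau, sig, rt]
  field_simp
  linear_combination v.1 * h3

private theorem bz_ts (C B : ℤ) (v : P) :
    ts C B v = Real.sin (C * tau v) * Real.sin (B * sig v) := rfl

/-- The value of `uz` in terms of cosines. -/
private theorem bz_val (M k : ℤ) (v : P) : uz M (M + 2 * k) v =
    (Real.cos (M * tau v - M * sig v - 2 * k * sig v) -
      Real.cos (M * tau v + M * sig v + 2 * k * sig v)) / 2 +
    (Real.cos (k * tau v + 2 * M * sig v + k * sig v) -
      Real.cos (2 * M * sig v - k * tau v + k * sig v)) / 2 +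
    (Real.cos (M * tau v + k * tau v + M * sig v - k * sig v) -
      Real.cos (M * tau v + k * tau v - M * sig v + k * sig v)) / 2 := by
  rw [bz_uz, bz_ts, bz_ts, bz_ts]
  push_cast
  rw [bz_ss (a := M * tau v) (b := (M + 2 * k) * sig v)
      (c := M * tau v - M * sig v - 2 * k * sig v) (d := M * tau v + M * sig v + 2 * k * sig v)
      (Or.inl (by ring)) (Or.inl (by ring)),
    bz_ss (a := -k * tau v) (b := (2 * M + k) * sig v)
      (c := k * tau v + 2 * M * sig v + k * sig v) (d := 2 * M * sig v - k * tau v + k * sig v)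
      (Or.inr (by ring)) (Or.inl (by ring)),
    bz_ss (a := -(M + k) * tau v) (b := (M - k) * sig v)
      (c := M * tau v + k * tau v + M * sig v - k * sig v)
      (d := M * tau v + k * tau v - M * sig v + k * sig v)
      (Or.inr (by ring)) (Or.inr (by ring))]

private theorem bz_ts0 (M k : ℤ) (v : P) : ts M (M + 2 * k) v =
    (Real.cos (M * tau v - M * sig v - 2 * k * sig v) -
      Real.cos (M * tau v + M * sig v + 2 * k * sig v)) / 2 := by
  rw [bz_ts]
  push_cast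
  rw [bz_ss (Or.inl _) (Or.inl _)] <;> ring

private theorem bz_ts0_rf (M k : ℤ) (v : P) : ts M (M + 2 * k) (rf v) =
    (Real.cos (2 * M * sig v - k * tau v + k * sig v) -
      Real.cos (M * tau v + k * tau v + M * sig v - k * sig v)) / 2 := by
  rw [bz_ts, tau_rf, sig_rf]
  push_cast
  rw [bz_ss (Or.inl _) (Or.inl _)] <;> ring

private theorem bz_ts0_rt (M k : ℤ) (v : P) : ts M (M + 2 * k) (rt v) =
    (Real.cos (k * tau v + 2 * M * sig v + k * sig v) -
      Real.cos (M * tau v + k * tau v - M * sig v + k * sig v)) / 2 := by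
  rw [bz_ts, tau_rt, sig_rt]
  push_cast
  rw [bz_ss (Or.inr _) (Or.inl _)] <;> ring

private theorem bz_zpow (n : ℤ) : (-1 : ℝ) ^ n = (-1) ^ n.natAbs := by
  rcases Int.natAbs_eq n with h | h
  · conv_lhs => rw [h]
    rw [zpow_natCast]
  · conv_lhs => rw [h]
    rw [zpow_neg, zpow_natCast]
    rcases neg_one_pow_eq_or ℝ n.natAbs with h1 | h1 <;> rw [h1] <;> norm_num

private theorem bz_even {n : ℤ} (h : Even n) : (-1 : ℝ) ^ n.natAbs = 1 :=
  Even.neg_one_pow (Int.natAbs_even.2 h)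

private theorem ts_neg_left (C B : ℤ) (v : P) : ts (-C) B v = -ts C B v := by
  rw [ts, ts]
  push_cast
  rw [neg_mul, Real.sin_neg]
  ring

private theorem ts_neg_right (C B : ℤ) (v : P) : ts C (-B) v = -ts C B v := by
  rw [ts, ts]
  push_cast
  rw [neg_mul, Real.sin_neg]
  ring

private theorem ts_zero_right (C : ℤ) (v : P) : ts C 0 v = 0 := by
  rw [ts, Int.cast_zero, zero_mul, Real.sin_zero, mul_zero]

private theorem ts_zero_left (B : ℤ) (v : P) : ts 0 B v = 0 := by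
  rw [ts, Int.cast_zero, zero_mul, Real.sin_zero, zero_mul]

private theorem bz_cyc (M k : ℤ) (v : P) : uz M (M + 2 * k) v = uz (-k) (2 * M + k) v := by
  have h1 : 2 * M + k = -k + 2 * (M + k) := by ring
  rw [h1, bz_uz, bz_uz]
  have h2 : 2 * -k + (M + k) = M - k := by ring
  have h3 : -(-k + (M + k)) = -M := by ring
  have h4 : -k - (M + k) = -(M + 2 * k) := by ring
  rw [h2, h3, h4, ts_neg_left M, ts_neg_right M, ← h1]
  ring

private theorem bz_neg (M k : ℤ) (v : P) : uz (-M) (M + 2 * k) v = -uz M (M + 2 * k) v := by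
  have h1 : M + 2 * k = -M + 2 * (M + k) := by ring
  conv_lhs => rw [h1]
  rw [bz_uz, bz_uz]
  have h2 : -M + 2 * (M + k) = M + 2 * k := by ring
  have h3 : 2 * -M + (M + k) = -(M - k) := by ring
  have h4 : -(-M + (M + k)) = -k := by ring
  have h5 : -M - (M + k) = -(2 * M + k) := by ring
  rw [h2, h3, h4, h5, ts_neg_left M, ts_neg_right (-(M + k)), ts_neg_right (-k)]
  ring

theorem uf_eq_uz (κ : KS) (v : P) : uf κ v = uz κ.1.1 κ.1.2 v := by
  rw [uf, Fin.sum_univ_three]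
  rfl

theorem uz_rf {M N : ℤ} (h : M % 2 = N % 2) (v : P) : uz M N (rf v) = -uz M N v := by
  obtain ⟨k, rfl⟩ := bz_par h
  rw [bz_uz M k (rf v), bz_val M k v, bz_ts0_rf, bz_ts, bz_ts, tau_rf, sig_rf]
  push_cast
  rw [bz_ss (a := -k * ((tau v + 3 * sig v) / 2)) (b := (2 * M + k) * ((tau v - sig v) / 2))
      (c := M * tau v + k * tau v - M * sig v + k * sig v)
      (d := M * tau v - M * sig v - 2 * k * sig v)
      (Or.inr (by ring)) (Or.inl (by ring)),
    bz_ss (a := -(M + k) * ((tau v + 3 * sig v) / 2)) (b := (M - k) * ((tau v - sig v) / 2))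
      (c := M * tau v + M * sig v + 2 * k * sig v)
      (d := k * tau v + 2 * M * sig v + k * sig v)
      (Or.inr (by ring)) (Or.inr (by ring))]
  ring

theorem uz_rt {M N : ℤ} (h : M % 2 = N % 2) (v : P) : uz M N (rt v) = uz M N v := by
  obtain ⟨k, rfl⟩ := bz_par h
  rw [bz_uz M k (rt v), bz_val M k v, bz_ts0_rt, bz_ts, bz_ts, tau_rt, sig_rt]
  push_cast
  rw [bz_ss (a := -k * ((tau v - 3 * sig v) / 2)) (b := (2 * M + k) * ((tau v + sig v) / 2))
      (c := M * tau v + k * tau v + M * sig v - k * sig v)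
      (d := M * tau v + M * sig v + 2 * k * sig v)
      (Or.inr (by ring)) (Or.inl (by ring)),
    bz_ss (a := -(M + k) * ((tau v - 3 * sig v) / 2)) (b := (M - k) * ((tau v + sig v) / 2))
      (c := M * tau v - M * sig v - 2 * k * sig v)
      (d := 2 * M * sig v - k * tau v + k * sig v)
      (Or.inr (by ring)) (Or.inl (by ring))]
  ring

theorem ts_pt (M N : ℤ) (v : P) : ts M N (pt v) = (-1) ^ (M + N).natAbs * ts M N v := by
  have h1 : Real.pi * (pt v).1 / √3 = Real.pi - Real.pi * v.1 / √3 := by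
    have h := bz_s0
    simp only [pt]
    field_simp
  have h2 : Real.pi * (pt v).2 / 3 = Real.pi - Real.pi * v.2 / 3 := by
    simp only [pt]
    ring
  have h3 : ∀ (n : ℤ) (x : ℝ), Real.sin (n * (Real.pi - x)) = -((-1) ^ n * Real.sin (n * x)) := by
    intro n x
    rw [mul_sub, Real.sin_sub, Real.sin_int_mul_pi, Real.cos_int_mul_pi]
    ring
  rw [ts, ts, h1, h2, h3, h3, ← bz_zpow, zpow_add₀ (by norm_num : (-1 : ℝ) ≠ 0)]
  ring

theorem uz_pt {M N : ℤ} (h : M % 2 = N % 2) (v : P) : uz M N (pt v) = uz M N v := by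
  obtain ⟨k, rfl⟩ := bz_par h
  rw [bz_uz, bz_uz, ts_pt, ts_pt, ts_pt, bz_even ⟨M + k, by ring⟩, bz_even ⟨M, by ring⟩,
    bz_even ⟨-k, by ring⟩, one_mul, one_mul, one_mul]

theorem ts_sum {M N : ℤ} (h : M % 2 = N % 2) (v : P) :
    ts M N v - ts M N (rf v) + ts M N (rt v) = uz M N v := by
  obtain ⟨k, rfl⟩ := bz_par h
  rw [bz_ts0, bz_ts0_rf, bz_ts0_rt, bz_val]
  ring

theorem exists_KS {M N : ℕ} (hM : 1 ≤ M) (hN : 1 ≤ N) (h : M % 2 = N % 2) :
    (∀ v, uz M N v = 0) ∨ ∃ κ : KS, (∀ v, uz M N v = uf κ v) ∨ ∀ v, uz M N v = -uf κ v := by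
  by_cases h1 : 3 * M < N
  · right
    refine ⟨⟨(M, N), hM, h1, h⟩, Or.inl fun v => ?_⟩
    rw [uf_eq_uz]
  obtain ⟨k, hk⟩ : ∃ k : ℤ, (N : ℤ) = M + 2 * k := bz_par (by omega)
  by_cases h2 : N = 3 * M
  · left
    intro v
    have h3 : k = M := by omega
    subst h3
    rw [hk, bz_uz]
    have h4 : (2 * (M : ℤ) + M) = M + 2 * M := by ring
    rw [sub_self, ts_zero_right, ts_neg_left, h4]
    ring
  by_cases h3 : N = M
  · left
    intro v
    have h4 : k = 0 := by omega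
    subst h4
    rw [hk, bz_uz]
    have h5 : (M : ℤ) + 2 * 0 = M := by ring
    rw [h5, neg_zero, add_zero, sub_zero, ts_zero_left, ts_neg_left]
    ring_nf
  right
  rcases lt_or_ge k 0 with h4 | h4
  · obtain ⟨m, hm⟩ : ∃ m : ℕ, (m : ℤ) = -k := ⟨(-k).toNat, by omega⟩
    obtain ⟨n, hn⟩ : ∃ n : ℕ, (n : ℤ) = 2 * M + k := ⟨(2 * M + k).toNat, by omega⟩
    refine ⟨⟨(m, n), by show 1 ≤ m; omega, by show 3 * m < n; omega,
      by show m % 2 = n % 2; omega⟩, Or.inl fun v => ?_⟩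
    rw [uf_eq_uz, hk, bz_cyc]
    show uz (-k) (2 * M + k) v = uz (m : ℤ) (n : ℤ) v
    rw [hm, hn]
  · obtain ⟨m, hm⟩ : ∃ m : ℕ, (m : ℤ) = k := ⟨k.toNat, by omega⟩
    obtain ⟨n, hn⟩ : ∃ n : ℕ, (n : ℤ) = 2 * M + k := ⟨(2 * M + k).toNat, by omega⟩
    refine ⟨⟨(m, n), by show 1 ≤ m; omega, by show 3 * m < n; omega,
      by show m % 2 = n % 2; omega⟩, Or.inr fun v => ?_⟩
    rw [uf_eq_uz, hk, bz_cyc]
    show uz (-k) (2 * M + k) v = -uz (m : ℤ) (n : ℤ) v
    rw [hm, hn]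
    have h5 : 2 * (M : ℤ) + k = k + 2 * M := by ring
    rw [h5, bz_neg]

end Pool.Agent.MP4eed4eP
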