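import Pool.Agent.Lib.MP_4eed4e_an_PB.BDefs

set_option autoImplicit false

/-!
Project P, block B, module BTr: the rectangle `R0 = (0, √3) × (0, 3)` consists of six copies of
`T0`.

`rf v = (x/2 + √3 y/2, √3 x/2 - y/2)` is the reflection in the line `y = x/√3` (angle 30 degrees),
`rt v = (x/2 - √3 y/2, √3 x/2 + y/2)` the rotation by 60 degrees, `pt v = (√3 - x, 3 - y)`.
All three are bijective and preserve Lebesgue measure (linear part of determinant `-1`, `1`, `1`).
`T0 = {0 < y, √3 y < x, x < √3}`. `rf` is an involution, and `v ∈ rf '' T0 ↔ rf v ∈ T0`, i.e.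
`y < √3 x`, `x < √3 y`, `x + √3 y < 2 √3`. `v ∈ rt '' T0 ↔` (inverse rotation
`(x/2 + √3 y/2, - √3 x/2 + y/2) ∈ T0`): `√3 x < y`, `0 < x`, `x + √3 y < 2 √3`. So, up to null sets
(the lines `x = √3 y`, `y = √3 x`), the union of the three is
`Q = {0 < x < √3, 0 < y, x + √3 y < 2 √3}` (in `T0`: `x + √3 y < √3 + √3 = 2 √3` because `√3 y < x
< √3`; conversely a point of `Q` with `√3 y < x` is in `T0`), and they are pairwise disjoint. `pt
'' Q` is `{0 < x < √3, y < 3, 2 √3 < x + √3 y}` (for `pt v`: `√3 - x + √3 (3 - y) < 2 √3` iff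
`2 √3 < x + √3 y`), and `Q`, `pt '' Q` are disjoint with union `R0` up to the line `x + √3 y = 2 √3`
(in `pt '' Q` one has `y > (2√3 - x)/√3 > 1 > 0`). Hence for `g` integrable on `R0`
`∫_{R0} g = ∑ ∫_{images} g = ∫_{T0} (g + g ∘ rf + g ∘ rt + g ∘ pt + g ∘ pt ∘ rf + g ∘ pt ∘ rt)`.
-/

namespace Pool.Agent.MP4eed4eP

open MeasureTheory Set

/-- The rectangle. -/
def R0 : Set P := Ioo 0 √3 ×ˢ Ioo 0 3

/-- Reflection in the line of angle 30 degrees. -/
noncomputable def rf (v : P) : P := (v.1 / 2 + √3 * v.2 / 2, √3 * v.1 / 2 - v.2 / 2)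

/-- Rotation by 60 degrees. -/
noncomputable def rt (v : P) : P := (v.1 / 2 - √3 * v.2 / 2, √3 * v.1 / 2 + v.2 / 2)

/-- Point reflection of the rectangle. -/
noncomputable def pt (v : P) : P := (√3 - v.1, 3 - v.2)

theorem isOpen_T0 : IsOpen T0 := by
  have h : T0 = {v : P | 0 < v.2} ∩ ({v : P | √3 * v.2 < v.1} ∩ {v : P | v.1 < √3}) := rfl
  rw [h]
  exact (isOpen_lt continuous_const continuous_snd).inter
    ((isOpen_lt (continuous_const.mul continuous_snd) continuous_fst).inter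
      (isOpen_lt continuous_fst continuous_const))

private theorem btr_s2 : √(3 : ℝ) * √3 = 3 := Real.mul_self_sqrt (by norm_num)

private theorem btr_s0 : 0 < √(3 : ℝ) := by positivity

private theorem btr_s1 : 1 < √(3 : ℝ) := by
  nlinarith [btr_s2, btr_s0]

private theorem btr_s3 : √(3 : ℝ) < 2 := by
  nlinarith [btr_s2, btr_s0]

private theorem btr_lin (a b c d : ℝ) (h : |a * d - b * c| = 1) :
    MeasurePreserving (fun v : P => (a * v.1 + b * v.2, c * v.1 + d * v.2)) volume volume := by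
  have hdet : LinearMap.det (Matrix.toLin (Module.Basis.finTwoProd ℝ) (Module.Basis.finTwoProd ℝ)
      !![a, b; c, d]) = a * d - b * c := by
    rw [LinearMap.det_toLin, Matrix.det_fin_two_of]
  have hne : LinearMap.det (Matrix.toLin (Module.Basis.finTwoProd ℝ) (Module.Basis.finTwoProd ℝ)
      !![a, b; c, d]) ≠ 0 := by
    rw [hdet]
    intro h0
    rw [h0, abs_zero] at h
    exact zero_ne_one h
  have h1 := Measure.map_linearMap_addHaar_eq_smul_addHaar (volume : Measure P) hne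
  refine ⟨by fun_prop, ?_⟩
  have h2 : (fun v : P => (a * v.1 + b * v.2, c * v.1 + d * v.2)) =
      Matrix.toLin (Module.Basis.finTwoProd ℝ) (Module.Basis.finTwoProd ℝ) !![a, b; c, d] :=
    funext fun v => (Matrix.toLin_finTwoProd_apply a b c d v).symm
  rw [h2, h1, hdet, abs_inv, h, inv_one, ENNReal.ofReal_one, one_smul]

private theorem btr_rf_mp : MeasurePreserving rf volume volume := by
  have h := btr_lin (1 / 2) (√3 / 2) (√3 / 2) (-1 / 2) (by
    have : (1 / 2 : ℝ) * (-1 / 2) - √3 / 2 * (√3 / 2) = -1 := by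
      linear_combination (-1 / 4 : ℝ) * btr_s2
    rw [this, abs_neg, abs_one])
  have e : rf = fun v : P => (1 / 2 * v.1 + √3 / 2 * v.2, √3 / 2 * v.1 + -1 / 2 * v.2) := by
    funext v
    unfold rf
    ext <;> ring
  rw [e]
  exact h

private theorem btr_rt_mp : MeasurePreserving rt volume volume := by
  have h := btr_lin (1 / 2) (-√3 / 2) (√3 / 2) (1 / 2) (by
    have : (1 / 2 : ℝ) * (1 / 2) - -√3 / 2 * (√3 / 2) = 1 := by
      linear_combination (1 / 4 : ℝ) * btr_s2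
    rw [this, abs_one])
  have e : rt = fun v : P => (1 / 2 * v.1 + -√3 / 2 * v.2, √3 / 2 * v.1 + 1 / 2 * v.2) := by
    funext v
    unfold rt
    ext <;> ring
  rw [e]
  exact h

private theorem btr_pt_mp : MeasurePreserving pt volume volume :=
  Measure.measurePreserving_sub_left (volume : Measure P) ((√3, 3) : P)

private theorem btr_rf_rf (v : P) : rf (rf v) = v := by
  unfold rf
  ext
  · dsimp only
    linear_combination (v.1 / 4) * btr_s2
  · dsimp only
    linear_combination (v.2 / 4) * btr_s2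

private noncomputable def btrI (v : P) : P :=
  (v.1 / 2 + √3 * v.2 / 2, -(√3 * v.1 / 2) + v.2 / 2)

private theorem btr_rt_i (v : P) : rt (btrI v) = v := by
  unfold rt btrI
  ext
  · dsimp only
    linear_combination (v.1 / 4) * btr_s2
  · dsimp only
    linear_combination (v.2 / 4) * btr_s2

private theorem btr_i_rt (v : P) : btrI (rt v) = v := by
  unfold rt btrI
  ext
  · dsimp only
    linear_combination (v.1 / 4) * btr_s2
  · dsimp only
    linear_combination (v.2 / 4) * btr_s2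

private theorem btr_pt_pt (v : P) : pt (pt v) = v := by
  unfold pt
  ext
  · dsimp only
    ring
  · dsimp only
    ring

private theorem btr_rf_c : Continuous rf := by
  unfold rf
  fun_prop

private theorem btr_rt_c : Continuous rt := by
  unfold rt
  fun_prop

private theorem btr_pt_c : Continuous pt := by
  unfold pt
  fun_prop

private theorem btr_rf_e : MeasurableEmbedding rf :=
  btr_rf_c.measurableEmbedding fun v w h => by
    rw [← btr_rf_rf v, h, btr_rf_rf]

private theorem btr_rt_e : MeasurableEmbedding rt :=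
  btr_rt_c.measurableEmbedding fun v w h => by
    rw [← btr_i_rt v, h, btr_i_rt]

private theorem btr_pt_e : MeasurableEmbedding pt :=
  btr_pt_c.measurableEmbedding fun v w h => by
    rw [← btr_pt_pt v, h, btr_pt_pt]

private theorem btr_id_m {v : P} (h : v ∈ T0) : v ∈ R0 := by
  obtain ⟨h1, h2, h3⟩ := h
  have h4 := mul_pos btr_s0 h1
  have h5 : v.2 ≤ √3 * v.2 := le_mul_of_one_le_left h1.le btr_s1.le
  have h6 := btr_s3
  exact ⟨⟨by linarith, h3⟩, ⟨h1, by linarith⟩⟩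

private theorem btr_rf_m {v : P} (h : v ∈ T0) : rf v ∈ R0 := by
  obtain ⟨h1, h2, h3⟩ := h
  have h4 := mul_pos btr_s0 h1
  have h5 : √3 * (√3 * v.2) < √3 * v.1 := mul_lt_mul_of_pos_left h2 btr_s0
  have h6 : √3 * (√3 * v.2) = 3 * v.2 := by linear_combination v.2 * btr_s2
  have h7 : √3 * v.1 < √3 * √3 := mul_lt_mul_of_pos_left h3 btr_s0
  rw [btr_s2] at h7
  refine ⟨⟨?_, ?_⟩, ⟨?_, ?_⟩⟩
  · change 0 < v.1 / 2 + √3 * v.2 / 2
    linarith
  · change v.1 / 2 + √3 * v.2 / 2 < √3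
    linarith
  · change 0 < √3 * v.1 / 2 - v.2 / 2
    linarith
  · change √3 * v.1 / 2 - v.2 / 2 < 3
    linarith

private theorem btr_rt_m {v : P} (h : v ∈ T0) : rt v ∈ R0 := by
  obtain ⟨h1, h2, h3⟩ := h
  have h4 := mul_pos btr_s0 h1
  have h5 : √3 * (√3 * v.2) < √3 * v.1 := mul_lt_mul_of_pos_left h2 btr_s0
  have h6 : √3 * (√3 * v.2) = 3 * v.2 := by linear_combination v.2 * btr_s2
  have h7 : √3 * v.1 < √3 * √3 := mul_lt_mul_of_pos_left h3 btr_s0
  rw [btr_s2] at h7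
  have h8 := btr_s3
  refine ⟨⟨?_, ?_⟩, ⟨?_, ?_⟩⟩
  · change 0 < v.1 / 2 - √3 * v.2 / 2
    linarith
  · change v.1 / 2 - √3 * v.2 / 2 < √3
    linarith
  · change 0 < √3 * v.1 / 2 + v.2 / 2
    linarith
  · change √3 * v.1 / 2 + v.2 / 2 < 3
    linarith

private theorem btr_pt_R {v : P} (h : v ∈ R0) : pt v ∈ R0 := by
  obtain ⟨⟨h1, h2⟩, ⟨h3, h4⟩⟩ := h
  refine ⟨⟨?_, ?_⟩, ⟨?_, ?_⟩⟩
  · change 0 < √3 - v.1
    linarith
  · change √3 - v.1 < √3
    linarith
  · change 0 < 3 - v.2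
    linarith
  · change 3 - v.2 < 3
    linarith

/-- The six maps. -/
noncomputable def six : Fin 6 → P → P := ![id, rf, rt, pt, pt ∘ rf, pt ∘ rt]

theorem six_props (i : Fin 6) : MeasurePreserving (six i) volume volume ∧
    MeasurableEmbedding (six i) ∧ MapsTo (six i) T0 R0 := by
  fin_cases i
  · exact ⟨MeasurePreserving.id _, MeasurableEmbedding.id, fun v hv => btr_id_m hv⟩
  · exact ⟨btr_rf_mp, btr_rf_e, fun v hv => btr_rf_m hv⟩
  · exact ⟨btr_rt_mp, btr_rt_e, fun v hv => btr_rt_m hv⟩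
  · exact ⟨btr_pt_mp, btr_pt_e, fun v hv => btr_pt_R (btr_id_m hv)⟩
  · exact ⟨btr_pt_mp.comp btr_rf_mp, btr_pt_e.comp btr_rf_e, fun v hv => btr_pt_R (btr_rf_m hv)⟩
  · exact ⟨btr_pt_mp.comp btr_rt_mp, btr_pt_e.comp btr_rt_e, fun v hv => btr_pt_R (btr_rt_m hv)⟩

private def btrD1 : Set P :=
  {v | v.2 < √3 * v.1 ∧ v.1 < √3 * v.2 ∧ v.1 + √3 * v.2 < 2 * √3}

private def btrD2 : Set P :=
  {v | √3 * v.1 < v.2 ∧ 0 < v.1 ∧ v.1 + √3 * v.2 < 2 * √3}

private theorem btr_img1 : rf '' T0 = btrD1 := by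
  have h : ∀ v : P, rf v ∈ T0 ↔ v ∈ btrD1 := by
    intro v
    have e : √3 * (√3 * v.1 / 2 - v.2 / 2) = 3 * v.1 / 2 - √3 * v.2 / 2 := by
      linear_combination (v.1 / 2) * btr_s2
    change (0 < √3 * v.1 / 2 - v.2 / 2 ∧ √3 * (√3 * v.1 / 2 - v.2 / 2) < v.1 / 2 + √3 * v.2 / 2 ∧
      v.1 / 2 + √3 * v.2 / 2 < √3) ↔ (v.2 < √3 * v.1 ∧ v.1 < √3 * v.2 ∧
      v.1 + √3 * v.2 < 2 * √3)
    rw [e]
    constructor
    · rintro ⟨h1, h2, h3⟩
      exact ⟨by linarith, by linarith, by linarith⟩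
    · rintro ⟨h1, h2, h3⟩
      exact ⟨by linarith, by linarith, by linarith⟩
  ext v
  rw [← h]
  constructor
  · rintro ⟨w, hw, rfl⟩
    rw [btr_rf_rf]
    exact hw
  · intro hv
    exact ⟨rf v, hv, btr_rf_rf v⟩

private theorem btr_img2 : rt '' T0 = btrD2 := by
  have h : ∀ v : P, btrI v ∈ T0 ↔ v ∈ btrD2 := by
    intro v
    have e : √3 * (-(√3 * v.1 / 2) + v.2 / 2) = -(3 * v.1 / 2) + √3 * v.2 / 2 := by
      linear_combination (-(v.1 / 2)) * btr_s2
    change (0 < -(√3 * v.1 / 2) + v.2 / 2 ∧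
      √3 * (-(√3 * v.1 / 2) + v.2 / 2) < v.1 / 2 + √3 * v.2 / 2 ∧
      v.1 / 2 + √3 * v.2 / 2 < √3) ↔ (√3 * v.1 < v.2 ∧ 0 < v.1 ∧ v.1 + √3 * v.2 < 2 * √3)
    rw [e]
    constructor
    · rintro ⟨h1, h2, h3⟩
      exact ⟨by linarith, by linarith, by linarith⟩
    · rintro ⟨h1, h2, h3⟩
      exact ⟨by linarith, by linarith, by linarith⟩
  ext v
  rw [← h]
  constructor
  · rintro ⟨w, hw, rfl⟩
    rw [btr_i_rt]
    exact hw
  · intro hv
    exact ⟨btrI v, hv, btr_rt_i v⟩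

private theorem btr_pimg (f : P → P) (D : Set P) (h : f '' T0 = D) :
    (pt ∘ f) '' T0 = pt ⁻¹' D := by
  rw [Set.image_comp, h]
  ext v
  constructor
  · rintro ⟨w, hw, rfl⟩
    change pt (pt w) ∈ D
    rw [btr_pt_pt]
    exact hw
  · intro hv
    exact ⟨pt v, hv, btr_pt_pt v⟩

private def btrE : Fin 6 → Set P :=
  ![T0, btrD1, btrD2, pt ⁻¹' T0, pt ⁻¹' btrD1, pt ⁻¹' btrD2]

private theorem btr_img (i : Fin 6) : six i '' T0 = btrE i := by
  fin_cases i
  · exact Set.image_id T0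
  · exact btr_img1
  · exact btr_img2
  · exact btr_pimg id T0 (Set.image_id T0)
  · exact btr_pimg rf _ btr_img1
  · exact btr_pimg rt _ btr_img2

private theorem btr_01 (v : P) (h : v ∈ T0) (h' : v ∈ btrD1) : False :=
  lt_asymm h.2.1 h'.2.1

private theorem btr_02 (v : P) (h : v ∈ T0) (h' : v ∈ btrD2) : False := by
  obtain ⟨h1, h2, h3⟩ := h
  obtain ⟨h4, h5, h6⟩ := h'
  have h7 : √3 * (√3 * v.1) < √3 * v.2 := mul_lt_mul_of_pos_left h4 btr_s0
  have h8 : √3 * (√3 * v.1) = 3 * v.1 := by linear_combination v.1 * btr_s2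
  linarith

private theorem btr_12 (v : P) (h : v ∈ btrD1) (h' : v ∈ btrD2) : False :=
  lt_asymm h.1 h'.1

private theorem btr_l0 (v : P) (h : v ∈ T0) : v.1 + √3 * v.2 < 2 * √3 := by
  obtain ⟨h1, h2, h3⟩ := h
  linarith

private theorem btr_x (v : P) (h : v.1 + √3 * v.2 < 2 * √3)
    (h' : (pt v).1 + √3 * (pt v).2 < 2 * √3) : False := by
  have h1 : √3 - v.1 + √3 * (3 - v.2) < 2 * √3 := h'
  rw [mul_sub] at h1
  linarith

theorem six_disj (i j : Fin 6) (h : i ≠ j) : Disjoint (six i '' T0) (six j '' T0) := by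
  rw [btr_img, btr_img, Set.disjoint_left]
  intro v hi hj
  fin_cases i <;> fin_cases j <;> first
    | exact h rfl
    | exact btr_01 v hi hj
    | exact btr_01 v hj hi
    | exact btr_02 v hi hj
    | exact btr_02 v hj hi
    | exact btr_12 v hi hj
    | exact btr_12 v hj hi
    | exact btr_01 (pt v) hi hj
    | exact btr_01 (pt v) hj hi
    | exact btr_02 (pt v) hi hj
    | exact btr_02 (pt v) hj hi
    | exact btr_12 (pt v) hi hj
    | exact btr_12 (pt v) hj hi
    | exact btr_x v (btr_l0 v hi) (btr_l0 (pt v) hj)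
    | exact btr_x v (btr_l0 v hj) (btr_l0 (pt v) hi)
    | exact btr_x v (btr_l0 v hi) (And.right (And.right hj))
    | exact btr_x v (btr_l0 v hj) (And.right (And.right hi))
    | exact btr_x v (And.right (And.right hi)) (btr_l0 (pt v) hj)
    | exact btr_x v (And.right (And.right hj)) (btr_l0 (pt v) hi)
    | exact btr_x v (And.right (And.right hi)) (And.right (And.right hj))
    | exact btr_x v (And.right (And.right hj)) (And.right (And.right hi))

private theorem btr_null (a b c : ℝ) (hb : b ≠ 0) :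
    volume {v : P | a * v.1 + b * v.2 = c} = 0 := by
  rw [Measure.volume_eq_prod, Measure.measure_prod_null
    (measurableSet_eq_fun (by fun_prop) (by fun_prop))]
  refine Filter.Eventually.of_forall fun x => ?_
  refine measure_mono_null (t := {(c - a * x) / b}) ?_ (measure_singleton _)
  intro y hy
  have h1 : a * x + b * y = c := hy
  rw [mem_singleton_iff, eq_div_iff hb]
  linarith

private theorem btr_core (v : P) (h : v ∈ R0) (h1 : v.1 + √3 * v.2 < 2 * √3)
    (h2 : v.1 ≠ √3 * v.2) (h3 : v.2 ≠ √3 * v.1) : v ∈ T0 ∨ v ∈ btrD1 ∨ v ∈ btrD2 := by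
  obtain ⟨⟨a1, a2⟩, ⟨a3, a4⟩⟩ := h
  rcases lt_or_gt_of_ne h2 with h4 | h4
  · rcases lt_or_gt_of_ne h3 with h5 | h5
    · exact Or.inr (Or.inl ⟨h5, h4, h1⟩)
    · exact Or.inr (Or.inr ⟨h5, a1, h1⟩)
  · exact Or.inl ⟨a3, h4, a2⟩

theorem six_cover : volume (R0 \ ⋃ i, six i '' T0) = 0 := by
  have hs := btr_s0.ne'
  have hN := measure_union_null (measure_union_null (btr_null 1 (-√3) 0 (neg_ne_zero.2 hs))
    (btr_null (-√3) 1 0 one_ne_zero)) (measure_union_null (btr_null 1 √3 (2 * √3) hs)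
    (btr_null 1 (-√3) (-(2 * √3)) (neg_ne_zero.2 hs)))
  refine measure_mono_null ?_ hN
  rintro v ⟨hv, hn⟩
  by_contra hno
  simp only [mem_union, not_or] at hno
  obtain ⟨⟨n1, n2⟩, ⟨n3, n4⟩⟩ := hno
  have m1 : ¬ (1 * v.1 + -√3 * v.2 = 0) := n1
  have m2 : ¬ (-√3 * v.1 + 1 * v.2 = 0) := n2
  have m3 : ¬ (1 * v.1 + √3 * v.2 = 2 * √3) := n3
  have m4 : ¬ (1 * v.1 + -√3 * v.2 = -(2 * √3)) := n4
  apply hn
  rw [mem_iUnion]
  rcases lt_or_gt_of_ne (show v.1 + √3 * v.2 ≠ 2 * √3 from fun h => m3 (by linarith))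
    with h | h
  · rcases btr_core v hv h (fun h' => m1 (by rw [h']; ring)) (fun h' => m2 (by rw [h']; ring))
      with h' | h' | h'
    · exact ⟨0, by rw [btr_img]; exact h'⟩
    · exact ⟨1, by rw [btr_img]; exact h'⟩
    · exact ⟨2, by rw [btr_img]; exact h'⟩
  · have e1 : (pt v).1 = √3 - v.1 := rfl
    have e2 : (pt v).2 = 3 - v.2 := rfl
    rcases btr_core (pt v) (btr_pt_R hv) (by rw [e1, e2, mul_sub]; linarith)
      (fun h' => m4 (by rw [e1, e2, mul_sub] at h'; linarith))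
      (fun h' => m2 (by rw [e1, e2, mul_sub, btr_s2] at h'; linarith)) with h' | h' | h'
    · exact ⟨3, by rw [btr_img]; exact h'⟩
    · exact ⟨4, by rw [btr_img]; exact h'⟩
    · exact ⟨5, by rw [btr_img]; exact h'⟩

theorem integral_R0 (g : P → ℝ) (hg : IntegrableOn g R0) :
    ∫ v in R0, g v = ∑ i, ∫ v in T0, g (six i v) := by
  have hT := isOpen_T0.measurableSet
  have hm : ∀ i, MeasurableSet (six i '' T0) := fun i =>
    (six_props i).2.1.measurableSet_image.2 hT
  have hsub : (⋃ i, six i '' T0) ⊆ R0 :=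
    iUnion_subset fun i => (six_props i).2.2.image_subset
  have hae : (R0 : Set P) =ᵐ[volume] (⋃ i, six i '' T0 : Set P) :=
    ae_eq_set.2 ⟨six_cover, by rw [sdiff_eq_empty.2 hsub, measure_empty]⟩
  rw [setIntegral_congr_set hae, integral_iUnion_fintype hm
    (fun i j hij => six_disj i j hij)
    (fun i => hg.mono_set ((subset_iUnion (fun i => six i '' T0) i).trans hsub))]
  exact Finset.sum_congr rfl fun i _ =>
    (six_props i).1.setIntegral_image_emb (six_props i).2.1 g T0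

end Pool.Agent.MP4eed4eP
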