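import Pool.Agent.Lib.MP_4eed4e_an_P.PBase

set_option autoImplicit false

/-!
Project P, block B: definitions.
-/

namespace Pool.Agent.MP4eed4eP

open MeasureTheory Set

/-- The unit square. -/
def Sq : Set P := Ioo 0 1 ×ˢ Ioo 0 1

/-- The orthonormal sine functions of the square. -/
noncomputable def ss (p : ℕ × ℕ) (x : P) : ℝ :=
  2 * Real.sin ((p.1 + 1 : ℝ) * Real.pi * x.1) * Real.sin ((p.2 + 1 : ℝ) * Real.pi * x.2)

/-- Their eigenvalues. -/
noncomputable def lams (p : ℕ × ℕ) : ℝ :=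
  Real.pi ^ 2 * (((p.1 : ℝ) + 1) ^ 2 + ((p.2 : ℝ) + 1) ^ 2)

end Pool.Agent.MP4eed4eP
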